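import Pool.Agent.V1119.NE.Ob
import Pool.Agent.TH773.ST.Ful

/-! Ordered triples of vertices and the extensions of a non-edge. -/

set_option autoImplicit false
set_option maxRecDepth 100000
set_option maxHeartbeats 4000000
open Finset
open scoped Classical

namespace Pool.Agent.V1119.NE
open Pool.Agent.H122R2.N6 Pool.Agent.TH773 Pool.Agent.TH773.ST

section
variable {n : ℕ}

/-- The number of vertices `v` outside `T` such that the set `T ∪ {v}` contains exactly `j` members
of `H`. -/
noncomputable def ext (H : Finset (Finset (Fin n))) (j : ℕ) (T : Finset (Fin n)) : ℕ :=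
  ((univ : Finset (Fin n)).filter fun v =>
    v ∉ T ∧ (H.filter fun e => e ⊆ insert v T).card = j).card

/-- the number of vertices `v` with `j` edges on `a b c v` besides `a b c` -/
noncomputable def cj (H : Finset (Finset (Fin n))) (a b c : Fin n) (j : ℕ) : ℕ :=
  ((univ : Finset (Fin n)).filter fun v => pf (tri H) a b c v = j).card

variable {H : Finset (Finset (Fin n))}

theorem pfc (h3 : ∀ e ∈ H, e.card = 3) {a b c v : Fin n} (hab : a ≠ b) (hac : a ≠ c) (hbc : b ≠ c)
    (hva : v ≠ a) (hvb : v ≠ b) (hvc : v ≠ c) :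
    (H.filter fun e => e ⊆ insert v ({a, b, c} : Finset (Fin n))).card =
      tri H a b c + pf (tri H) a b c v := by
  have h := card_filter_four (V := Fin n) h3 hva hvb hvc hab hac hbc
  have hE := tri_sy H
  have e : (H.filter fun e => e ⊆ insert v ({a, b, c} : Finset (Fin n))).card =
      tri H v a b + tri H v a c + tri H v b c + tri H a b c := by
    refine Eq.trans (congrArg Finset.card ?_) h
    ext e
    simp only [mem_filter, subset_iff, mem_insert, mem_singleton]
  rw [e, hE.h312 a b v, hE.h312 a c v, hE.h312 b c v]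
  unfold pf
  omega

theorem tri_self1 (h3 : ∀ e ∈ H, e.card = 3) (a b : Fin n) : tri H a b a = 0 :=
  tri_zero h3 (a := a) (b := b) (c := a) (by simp)

theorem tri_self2 (h3 : ∀ e ∈ H, e.card = 3) (a b : Fin n) : tri H a a b = 0 :=
  tri_zero h3 (a := a) (b := a) (c := b) (by simp)

theorem tri_self3 (h3 : ∀ e ∈ H, e.card = 3) (a b : Fin n) : tri H a b b = 0 :=
  tri_zero h3 (a := a) (b := b) (c := b) (by simp)

theorem cj_ext (h3 : ∀ e ∈ H, e.card = 3) {a b c : Fin n} (hab : a ≠ b) (hac : a ≠ c)
    (hbc : b ≠ c) (hT : ({a, b, c} : Finset (Fin n)) ∉ H) (j : ℕ) :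
    cj H a b c j = ext H j {a, b, c} + if j = 0 then 3 else 0 := by
  have hE := tri_sy H
  have h0 : tri H a b c = 0 := by
    rcases hE.b a b c with h | h
    · exact h
    · exact absurd (tri_iff.mp h) hT
  have hin : ∀ v ∈ ({a, b, c} : Finset (Fin n)), pf (tri H) a b c v = 0 := by
    intro v hv
    simp only [mem_insert, mem_singleton] at hv
    unfold pf
    rcases hv with rfl | rfl | rfl
    · rw [tri_self1 h3, tri_self1 h3, hE.h231 v b c, h0]
    · rw [tri_self3 h3, tri_self1 h3, hE.h132 a v c, h0]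
    · rw [tri_self3 h3, tri_self3 h3, h0]
  have h4 := Finset.card_filter_add_card_filter_not
    (s := (univ : Finset (Fin n)).filter fun v => pf (tri H) a b c v = j)
    (fun v => v ∉ ({a, b, c} : Finset (Fin n)))
  unfold cj
  rw [← h4, filter_filter, filter_filter]
  have e1 : ((univ : Finset (Fin n)).filter fun v => pf (tri H) a b c v = j ∧
      v ∉ ({a, b, c} : Finset (Fin n))).card = ext H j {a, b, c} := by
    unfold ext
    congr 1
    ext v
    simp only [mem_filter, mem_univ, true_and]
    rw [and_comm]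
    refine and_congr_right fun hv => ?_
    simp only [mem_insert, mem_singleton, not_or] at hv
    have h5 := pfc h3 hab hac hbc hv.1 hv.2.1 hv.2.2
    rw [h0, Nat.zero_add] at h5
    rw [h5]
  have e2 : ((univ : Finset (Fin n)).filter fun v => pf (tri H) a b c v = j ∧
      ¬ v ∉ ({a, b, c} : Finset (Fin n))).card = if j = 0 then 3 else 0 := by
    split_ifs with hj
    · subst hj
      have e3 : ((univ : Finset (Fin n)).filter fun v => pf (tri H) a b c v = 0 ∧
          ¬ v ∉ ({a, b, c} : Finset (Fin n))) = {a, b, c} := by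
        ext v
        simp only [mem_filter, mem_univ, true_and, not_not]
        exact ⟨fun h => h.2, fun h => ⟨hin v h, h⟩⟩
      rw [e3, card_insert_of_notMem, card_insert_of_notMem, card_singleton]
      · simpa using hbc
      · simp [hab, hac]
    · rw [card_eq_zero, filter_eq_empty_iff]
      rintro v - ⟨h6, h7⟩
      rw [not_not] at h7
      exact hj (h6 ▸ hin v h7)
  rw [e1, e2]

/-- no vertices with exactly one further edge at a degenerate triple -/
theorem cj_one (h3 : ∀ e ∈ H, e.card = 3) {a b c : Fin n} (h : ¬ (a ≠ b ∧ a ≠ c ∧ b ≠ c)) :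
    cj H a b c 1 = 0 := by
  have hE := tri_sy H
  unfold cj
  rw [card_eq_zero, filter_eq_empty_iff]
  intro v _ hv
  unfold pf at hv
  by_cases hab : a = b
  · subst hab
    rw [tri_self2 h3] at hv
    omega
  by_cases hac : a = c
  · subst hac
    rw [tri_self2 h3, hE.h213 a b v] at hv
    omega
  by_cases hbc : b = c
  · subst hbc
    rw [tri_self2 h3] at hv
    omega
  exact h ⟨hab, hac, hbc⟩

/-- a sum over the ordered triples of vertices as a sum over three-element sets -/
theorem sum_ord (H : Finset (Finset (Fin n))) (f : Fin n → Fin n → Fin n → ℤ)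
    (w : Finset (Fin n) → ℤ)
    (h0 : ∀ a b c, ¬ (a ≠ b ∧ a ≠ c ∧ b ≠ c) → f a b c = 0)
    (h1 : ∀ a b c, a ≠ b → a ≠ c → b ≠ c → ({a, b, c} : Finset (Fin n)) ∈ H → f a b c = 0)
    (h2 : ∀ a b c, a ≠ b → a ≠ c → b ≠ c → ({a, b, c} : Finset (Fin n)) ∉ H →
      f a b c = w {a, b, c}) :
    ∑ a, ∑ b, ∑ c, f a b c = 6 * ∑ T ∈ (univ : Finset (Fin n)).powersetCard 3 \ H, w T := by
  have e1 : ∀ a b c : Fin n, f a b c =
      ∑ T ∈ (univ : Finset (Fin n)).powersetCard 3 \ H,
        (tri ({T} : Finset (Finset (Fin n))) a b c : ℤ) * w T := by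
    intro a b c
    have ht : ∀ T : Finset (Fin n), (tri ({T} : Finset (Finset (Fin n))) a b c : ℤ) =
        if T = ({a, b, c} : Finset (Fin n)) then 1 else 0 := by
      intro T
      rw [tri_ite]
      by_cases hT : T = ({a, b, c} : Finset (Fin n))
      · rw [if_pos hT, if_pos (by rw [mem_singleton]; exact hT.symm)]; rfl
      · rw [if_neg hT, if_neg (by rw [mem_singleton]; exact fun h => hT h.symm)]; rfl
    simp only [ht, ite_mul, one_mul, zero_mul]
    rw [Finset.sum_ite_eq' (univ.powersetCard 3 \ H) ({a, b, c} : Finset (Fin n)) w]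
    by_cases hd : a ≠ b ∧ a ≠ c ∧ b ≠ c
    · obtain ⟨hab, hac, hbc⟩ := hd
      have hc : ({a, b, c} : Finset (Fin n)).card = 3 := by
        rw [card_insert_of_notMem, card_insert_of_notMem, card_singleton]
        · simpa using hbc
        · simp [hab, hac]
      by_cases hH : ({a, b, c} : Finset (Fin n)) ∈ H
      · rw [h1 a b c hab hac hbc hH, if_neg]
        simp [hH]
      · rw [h2 a b c hab hac hbc hH, if_pos]
        rw [mem_sdiff, mem_powersetCard]
        exact ⟨⟨subset_univ _, hc⟩, hH⟩
    · rw [h0 a b c hd, if_neg]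
      rw [mem_sdiff, mem_powersetCard]
      rintro ⟨⟨-, hc⟩, -⟩
      apply hd
      refine ⟨?_, ?_, ?_⟩
      · rintro rfl
        have : ({a, a, c} : Finset (Fin n)).card ≤ 2 := by
          rw [insert_eq_of_mem (mem_insert_self _ _)]; exact card_le_two
        omega
      · rintro rfl
        have : ({a, b, a} : Finset (Fin n)).card ≤ 2 := by
          rw [insert_comm, insert_eq_of_mem (mem_singleton_self _)]; exact card_le_two
        omega
      · rintro rfl
        have : ({a, b, b} : Finset (Fin n)).card ≤ 2 := by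
          rw [insert_eq_of_mem (mem_singleton_self b)]; exact card_le_two
        omega
  simp only [e1]
  have e2 : ∑ a : Fin n, ∑ b : Fin n, ∑ c : Fin n,
      ∑ T ∈ (univ : Finset (Fin n)).powersetCard 3 \ H,
        (tri ({T} : Finset (Finset (Fin n))) a b c : ℤ) * w T =
      ∑ T ∈ (univ : Finset (Fin n)).powersetCard 3 \ H,
        ∑ a : Fin n, ∑ b : Fin n, ∑ c : Fin n,
          (tri ({T} : Finset (Finset (Fin n))) a b c : ℤ) * w T := by
    simp only [Finset.sum_comm (t := (univ : Finset (Fin n)).powersetCard 3 \ H)]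
  rw [e2, mul_sum]
  refine sum_congr rfl fun T hT => ?_
  have hc : T.card = 3 := (mem_powersetCard.mp (mem_sdiff.mp hT).1).2
  have h6 := S3_tri (H := ({T} : Finset (Finset (Fin n)))) (fun e he => by
    rw [mem_singleton] at he; rw [he]; exact hc)
  have h7 : (∑ a : Fin n, ∑ b : Fin n, ∑ c : Fin n,
      (tri ({T} : Finset (Finset (Fin n))) a b c : ℤ)) = 6 := by
    have h8 : ((∑ a : Fin n, ∑ b : Fin n, ∑ c : Fin n,
      tri ({T} : Finset (Finset (Fin n))) a b c : ℕ) : ℤ) = ((6 * 1 : ℕ) : ℤ) := by
      have h9 : S3 (tri ({T} : Finset (Finset (Fin n)))) = ∑ a : Fin n, ∑ b : Fin n, ∑ c : Fin n,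
        tri ({T} : Finset (Finset (Fin n))) a b c := rfl
      rw [← h9, h6, card_singleton]
    push_cast at h8
    exact h8
  simp only [← sum_mul]
  rw [h7]

end
end Pool.Agent.V1119.NE
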