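import Pool.Agent.V1119.NE.LocA

/-! Codegree sums. -/

set_option autoImplicit false
set_option maxRecDepth 100000
set_option maxHeartbeats 4000000
open Finset
open scoped Classical

namespace Pool.Agent.V1119.NE2
open Pool.Agent.V1119.NE
open Pool.Agent.H122R2.N6 Pool.Agent.TH773 Pool.Agent.TH773.ST

section
variable {n : ℕ} {H : Finset (Finset (Fin n))}

theorem prodG (c : ℤ) (x1 x2 y1 y2 z : Fin n → ℤ) :
    ∑ d, ∑ e, ∑ f, (c + (x1 d * x2 e + y2 d * y1 e) * z f) =
      c * (n : ℤ) ^ 3 + ((∑ d, x1 d) * (∑ e, x2 e) + (∑ d, y2 d) * (∑ e, y1 e)) *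
        ∑ f, z f := by
  have hc : ∀ c : ℤ, ∑ _f : Fin n, c = (n : ℤ) * c := fun c => by
    rw [sum_const, card_univ, Fintype.card_fin, nsmul_eq_mul]
  have h1 : ∀ d e : Fin n, ∑ f, (c + (x1 d * x2 e + y2 d * y1 e) * z f) =
      (n : ℤ) * c + (x1 d * x2 e + y2 d * y1 e) * ∑ f, z f := by
    intro d e
    rw [sum_add_distrib, hc, ← mul_sum]
  simp only [h1]
  set Z := ∑ f, z f
  have h2 : ∀ d : Fin n, ∑ e, ((n : ℤ) * c + (x1 d * x2 e + y2 d * y1 e) * Z) =
      (n : ℤ) * ((n : ℤ) * c) + (x1 d * (∑ e, x2 e) + y2 d * (∑ e, y1 e)) * Z := by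
    intro d
    rw [sum_add_distrib, hc, ← sum_mul, sum_add_distrib, ← mul_sum, ← mul_sum]
  simp only [h2]
  rw [sum_add_distrib, hc, ← sum_mul, sum_add_distrib, ← sum_mul, ← sum_mul]
  ring

/-- the number of pairs of a vertex and an edge formed by it with two of `a`, `b`, `c` -/
noncomputable def spf (H : Finset (Finset (Fin n))) (a b c : Fin n) : ℕ := ∑ v, pf (tri H) a b c v

/-- the sum of the codegrees of the pairs in `T` -/
noncomputable def codsum (H : Finset (Finset (Fin n))) (T : Finset (Fin n)) : ℕ :=
  ∑ p ∈ T.powersetCard 2, ((univ : Finset (Fin n)).filter fun z => insert z p ∈ H).card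

theorem sum_tri' (H : Finset (Finset (Fin n))) (x y : Fin n) :
    ∑ z, tri H x y z = ((univ : Finset (Fin n)).filter fun z => insert z {x, y} ∈ H).card := by
  rw [card_filter]
  refine sum_congr rfl fun z _ => ?_
  rw [tri_ite]
  have e : ({x, y, z} : Finset (Fin n)) = insert z {x, y} := by
    ext v
    simp only [mem_insert, mem_singleton]
    tauto
  rw [e]

theorem spf_codsum {a b c : Fin n} (hab : a ≠ b) (hac : a ≠ c) (hbc : b ≠ c) :
    spf H a b c = codsum H {a, b, c} := by
  have hp : ({a, b, c} : Finset (Fin n)).powersetCard 2 = {{a, b}, {a, c}, {b, c}} := by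
    ext p
    rw [mem_powersetCard]
    simp only [mem_insert, mem_singleton]
    constructor
    · rintro ⟨h1, h2⟩
      obtain ⟨x, y, hxy, rfl⟩ := card_eq_two.mp h2
      have hx := h1 (mem_insert_self x {y})
      have hy := h1 (mem_insert_of_mem (mem_singleton_self y))
      simp only [mem_insert, mem_singleton] at hx hy
      rcases hx with rfl | rfl | rfl <;> rcases hy with rfl | rfl | rfl
      · exact absurd rfl hxy
      · exact Or.inl rfl
      · exact Or.inr (Or.inl rfl)
      · exact Or.inl (pair_comm _ _)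
      · exact absurd rfl hxy
      · exact Or.inr (Or.inr rfl)
      · exact Or.inr (Or.inl (pair_comm _ _))
      · exact Or.inr (Or.inr (pair_comm _ _))
      · exact absurd rfl hxy
    · rintro (rfl | rfl | rfl)
      · exact ⟨by intro v; simp only [mem_insert, mem_singleton]; tauto, card_pair hab⟩
      · exact ⟨by intro v; simp only [mem_insert, mem_singleton]; tauto, card_pair hac⟩
      · exact ⟨by intro v; simp only [mem_insert, mem_singleton]; tauto, card_pair hbc⟩
  have n1 : ({a, b} : Finset (Fin n)) ∉ ({{a, c}, {b, c}} : Finset (Finset (Fin n))) := by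
    simp only [mem_insert, mem_singleton, not_or]
    refine ⟨fun h => ?_, fun h => ?_⟩
    · have : b ∈ ({a, c} : Finset (Fin n)) := h ▸ mem_insert_of_mem (mem_singleton_self b)
      simp only [mem_insert, mem_singleton] at this
      rcases this with h | h
      · exact hab h.symm
      · exact hbc h
    · have : a ∈ ({b, c} : Finset (Fin n)) := h ▸ mem_insert_self a {b}
      simp only [mem_insert, mem_singleton] at this
      rcases this with h | h
      · exact hab h
      · exact hac h
  have n2 : ({a, c} : Finset (Fin n)) ∉ ({{b, c}} : Finset (Finset (Fin n))) := by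
    simp only [mem_singleton]
    intro h
    have : a ∈ ({b, c} : Finset (Fin n)) := h ▸ mem_insert_self a {c}
    simp only [mem_insert, mem_singleton] at this
    rcases this with h | h
    · exact hab h
    · exact hac h
  unfold codsum spf
  rw [hp, sum_insert n1, sum_insert n2, sum_singleton, ← sum_tri', ← sum_tri', ← sum_tri',
    ← sum_add_distrib, ← sum_add_distrib]
  rfl

theorem pf_le2 (hN : NoK4 (tri H)) {a b c v : Fin n} (h : tri H a b c = 1) :
    pf (tri H) a b c v ≤ 2 := by
  have hE := tri_sy H
  have h0 := hN a b c v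
  rcases hE.b a b v with h1 | h1 <;> rcases hE.b a c v with h2 | h2 <;>
    rcases hE.b b c v with h3 | h3 <;> unfold pf <;> try omega
  rw [h, h1, h2, h3] at h0
  exact absurd h0 (by decide)

end

end Pool.Agent.V1119.NE2
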