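import Pool.Agent.V1119.NE.Cnt
import Pool.Agent.TH773.ST.CoMain

/-! Complements: from `K_4^3`-free 3-graphs to coverings. -/

set_option autoImplicit false
set_option maxRecDepth 100000
set_option maxHeartbeats 4000000
open Finset
open scoped Classical

namespace Pool.Agent.V1119.NE
open Pool.Agent.TH773 Pool.Agent.TH773.ST Pool.Agent.TH773.Cov

section
variable {n : ℕ}

/-- the complement -/
def cpl (G : Finset (Finset (Fin n))) : Finset (Finset (Fin n)) :=
  (univ : Finset (Fin n)).powersetCard 3 \ G

theorem cpl_card {G : Finset (Finset (Fin n))} {e : Finset (Fin n)} (he : e ∈ cpl G) :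
    e.card = 3 := (mem_powersetCard.mp (mem_sdiff.mp he).1).2

theorem cpl_cpl {G : Finset (Finset (Fin n))} (hG : ∀ e ∈ G, e.card = 3) : cpl (cpl G) = G := by
  unfold cpl
  ext e
  simp only [mem_sdiff, mem_powersetCard, subset_univ, true_and, not_and, not_not]
  constructor
  · rintro ⟨h1, h2⟩
    exact h2 h1
  · intro h
    exact ⟨hG e h, fun _ => h⟩

theorem ext_cpl {G : Finset (Finset (Fin n))} (hG : ∀ e ∈ G, e.card = 3) {T : Finset (Fin n)}
    (hT : T.card = 3) {i j : ℕ} (hij : i + j = 4) : ext (cpl G) i T = ext G j T := by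
  unfold ext
  congr 1
  ext v
  simp only [mem_filter, mem_univ, true_and]
  refine and_congr_right fun hv => ?_
  have h4 : (insert v T).card = 4 := by rw [card_insert_of_notMem hv, hT]
  have h5 : ((cpl G).filter fun e => e ⊆ insert v T).card +
      (G.filter fun e => e ⊆ insert v T).card = 4 := by
    rw [← card_union_of_disjoint]
    · have : ((cpl G).filter fun e => e ⊆ insert v T) ∪ (G.filter fun e => e ⊆ insert v T) =
          (insert v T).powersetCard 3 := by
        ext e
        simp only [mem_union, mem_filter, cpl, mem_sdiff, mem_powersetCard, subset_univ, true_and]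
        constructor
        · rintro (h | h)
          · exact ⟨h.2, h.1.1⟩
          · exact ⟨h.2, hG e h.1⟩
        · rintro ⟨h1, h2⟩
          by_cases h : e ∈ G
          · exact Or.inr ⟨h, h1⟩
          · exact Or.inl ⟨⟨h2, h⟩, h1⟩
      rw [this, card_powersetCard, h4]
      decide
    · rw [disjoint_left]
      intro e h1 h2
      exact (mem_sdiff.mp (mem_filter.mp h1).1).2 (mem_filter.mp h2).1
  omega

theorem symm_cpl {A B : Finset (Finset (Fin n))} (hA : ∀ e ∈ A, e.card = 3)
    (hB : ∀ e ∈ B, e.card = 3) : symmDiff (cpl A) (cpl B) = symmDiff A B := by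
  ext e
  simp only [mem_symmDiff, cpl, mem_sdiff, mem_powersetCard, subset_univ, true_and]
  have h1 := hA e
  have h2 := hB e
  tauto

theorem turan_cpl (g : Fin n → Fin 3) : Turan34.turan g = cpl (turanC fun v => -g v) := by
  unfold cpl
  rw [compl_turanC]
  congr 1
  ext v
  simp

theorem card_cpl {G : Finset (Finset (Fin n))} (hG : ∀ e ∈ G, e.card = 3) :
    ((cpl G).card : ℝ) = (n : ℝ) ^ 3 / 6 - (n : ℝ) ^ 2 / 2 + (n : ℝ) / 3 - G.card := by
  have h1 := card_compl hG
  have h2 := choose_three n
  have h1' : ((cpl G).card : ℝ) + G.card = (n.choose 3 : ℝ) := by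
    unfold cpl
    exact_mod_cast h1
  have h2' : (n : ℝ) ^ 3 + 2 * n = 6 * (n.choose 3 : ℝ) + 3 * (n : ℝ) ^ 2 := by exact_mod_cast h2
  linarith

end
end Pool.Agent.V1119.NE
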