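import Pool.Agent.V1119.NE.PsdCE
import Pool.Agent.V1119.NE.ChkCE

/-! The certificate as an inequality (generated). -/

set_option autoImplicit false
set_option maxRecDepth 100000
set_option maxHeartbeats 4000000
open Finset
open scoped Classical

namespace Pool.Agent.V1119.NE.CE
open Pool.Agent.H122R2.N6 Pool.Agent.V1119.NE Pool.Agent.TH773.ST Pool.Agent.H37R3.CopL

theorem hc (b012 b013 b023 b123 b014 b024 b124 b034 b134 b234 : ℕ) (hb012 : Bt b012) (hb013 : Bt b013) (hb023 : Bt b023) (hb123 : Bt b123) (hb014 : Bt b014) (hb024 : Bt b024) (hb124 : Bt b124) (hb034 : Bt b034) (hb134 : Bt b134) (hb234 : Bt b234) (ht : tg b012 b013 b023 b123 b014 b024 b124 b034 b134 b234 = 4) :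
    chkS q4 q2 CST 0 283424747882921937180 LT [] b012 b013 b023 b123 b014 b024 b124 b034 b134 b234 = true := by
  have h : part b012 b013 = true := by
    rcases hb012 with rfl | rfl <;> rcases hb013 with rfl | rfl
    exacts [part00, part01, part10, part11]
  have h2 := (B2_true (B2_true (B2_true (B2_true (B2_true (B2_true (B2_true (B2_true h hb023) hb123) hb014) hb024) hb124) hb034) hb134) hb234)
  refine or_false_left h2 ?_
  rw [ht]
  rfl

theorem rng : (nall 16 fun c => and (Nat.blt (rho c) 4) (nall 64 fun i => Nat.blt (pc c i) 64)) = true := by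
  decide +kernel

theorem rho_lt {c : ℕ} (h : c < 16) : rho c < 4 := by
  have h2 := nall_true rng c h
  rw [Bool.and_eq_true] at h2
  exact Nat.le_of_ble_eq_true h2.1

theorem pc_lt {c i : ℕ} (h : c < 16) (hi : i < 64) : pc c i < 64 := by
  have h2 := nall_true rng c h
  rw [Bool.and_eq_true] at h2
  exact Nat.le_of_ble_eq_true (nall_true h2.2 i hi)

theorem g4_all {r i j : ℕ} (hr : r < 4) (hi : i < 64) (hj : j < 64) : g4 r i j = true := by
  interval_cases r
  exacts [nall_true (nall_true cp0 i hi) j hj, nall_true (nall_true cp1 i hi) j hj,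
    nall_true (nall_true cp2 i hi) j hj, nall_true (nall_true cp3 i hi) j hj]

theorem expand (s : Finset ℕ) (w u v : ℕ → ℕ) (B : ℤ) :
    ∑ k ∈ s, (w k : ℤ) * ((u k : ℤ) - B) * ((v k : ℤ) - B)
      = (∑ k ∈ s, (w k : ℤ) * ((u k : ℤ) * (v k : ℤ))) + B ^ 2 * (∑ k ∈ s, (w k : ℤ))
        - B * ((∑ k ∈ s, (w k : ℤ) * (u k : ℤ)) + ∑ k ∈ s, (w k : ℤ) * (v k : ℤ)) := by
  rw [mul_add, mul_sum, mul_sum, mul_sum, ← sum_add_distrib, ← sum_add_distrib, ← sum_sub_distrib]
  exact sum_congr rfl fun k _ => by ring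

/-- the weights -/
def W (c k : ℕ) : ℕ := if c = 15 then 0 else w4 (rho c) k

theorem hq4 (c i j : ℕ) (hc : c < 16) (hi : i < 64) (hj : j < 64) : (q4 c i j : ℤ) =
    ∑ k ∈ range 79, (W c k : ℤ) * ((l4 (rho c) (pc c i) k : ℤ) - 524288) *
      ((l4 (rho c) (pc c j) k : ℤ) - 524288) + (604462909807314587353088 + 775638075323417886720 * (mu8 G c i j : ℤ)) := by
  by_cases h15 : c = 15
  · subst h15
    have hm := Nat.eq_of_beq_eq_true (nall_true (nall_true cpf i hi) j hj)
    have h1 : q4 15 i j = 3086504750842251824857088 := rfl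
    rw [h1, hm]
    have h2 : ∀ k, W 15 k = 0 := fun k => if_pos rfl
    simp only [h2]
    simp
  have hm := Nat.eq_of_beq_eq_true (nall_true (nall_true (nall_true cpm c (by omega)) i hi) j hj)
  have h := Nat.eq_of_beq_eq_true (g4_all (rho_lt hc) (pc_lt hc hi) (pc_lt hc hj))
  rw [hm] at h
  unfold ll sw sl at h
  rw [nsum_eq, nsum_eq, nsum_eq, nsum_eq] at h
  have h2 := congrArg (fun n : ℕ => (n : ℤ)) h
  simp only [Nat.add_eq, Nat.mul_eq] at h2
  push_cast at h2
  have hW : ∀ k, W c k = w4 (rho c) k := fun k => if_neg h15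
  simp only [hW]
  rw [expand (range 79) (fun k => w4 (rho c) k) (fun k => l4 (rho c) (pc c i) k)
    (fun k => l4 (rho c) (pc c j) k) 524288]
  have b15 : Nat.beq c 15 = false := Bool.eq_false_iff.mpr fun h => h15 (Nat.eq_of_beq_eq_true h)
  have h3 : (q4 c i j : ℤ) = (tq (rho c) (pc c i) (pc c j) : ℤ) := by
    unfold q4
    rw [b15, cond_false]
  rw [h3]
  linarith

theorem hq2 (i j : ℕ) (hi : i < 16) (hj : j < 16) : (q2 i j : ℤ) =
    ∑ k ∈ range 11, (w2 k : ℤ) * ((l2 i k : ℤ) - 524288) * ((l2 j k : ℤ) - 524288)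
      + (37778931862957161709568 + (fun k : ℕ => (6894560669541492326400 : ℤ) * k) (kk i j)) := by
  have h := Nat.eq_of_beq_eq_true (nall_true (nall_true cpb i hi) j hj)
  unfold ll2 sw2 sl2 t2 at h
  rw [nsum_eq, nsum_eq, nsum_eq, nsum_eq] at h
  have h2 := congrArg (fun n : ℕ => (n : ℤ)) h
  simp only [Nat.add_eq, Nat.mul_eq] at h2
  push_cast at h2
  rw [expand (range 11) (fun k => w2 k) (fun k => l2 i k) (fun k => l2 j k) 524288]
  show (q2 i j : ℤ) = _ + (_ + (6894560669541492326400 : ℤ) * ((kk i j : ℕ) : ℤ))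
  linarith

theorem main {V : Type} [Fintype V] {E : V → V → V → ℕ} (hE : Sy E) (hK : NoK4 E) :
    180 * 6894560669541492326400 * ((Fintype.card V : ℤ) ^ 3 * ∑ a, ∑ b, ∑ c, (E a b c : ℤ)) +
      120 * 775638075323417886720 * (∑ a, ∑ b, ∑ c, ∑ d, ∑ e, ∑ f, (trm E G a b c d e f : ℤ)) +
      283424747882921937180 * (NT E : ℤ) ≤ 37920083682478207795200000 * (Fintype.card V : ℤ) ^ 6 := by
  have hb := slack_ob (E := E) hE hK (K := 79) (K2 := 11) (C := CST) (s := 283424747882921937180)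
    (B := 524288) (O4 := 604462909807314587353088) (O2 := 37778931862957161709568) (M := 775638075323417886720)
    (t := fun k => (6894560669541492326400 : ℤ) * k) (q4 := q4) (q2 := q2) (G := G)
    (W := W) (l := fun c i k => l4 (rho c) (pc c i) k) (W2 := w2) (l2 := l2)
    (LT := LT) (TbT := TbT) (by decide +kernel) hq4 hq2 cs4 cs2 hc isoT
  have hC : ((CST : ℕ) : ℤ) = 48687079263420998882426880 := rfl
  rw [hC, Pool.Agent.H37R3.Pen.T2_lin E hE] at hb
  push_cast at hb
  linarith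

end Pool.Agent.V1119.NE.CE
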