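import Pool.Agent.V1119.NE.FinCA
import Pool.Agent.V1119.NE.Cnt

/-! The inequality for the extensions of the non-edges. -/

set_option autoImplicit false
set_option maxRecDepth 100000
set_option maxHeartbeats 4000000
open Finset
open scoped Classical

namespace Pool.Agent.V1119.NE
open Pool.Agent.H122R2.N6 Pool.Agent.TH773 Pool.Agent.TH773.ST

def u (i p : ℕ) : ℤ := if p = i then 1 else 0

theorem pf_lt {V : Type} {E : V → V → V → ℕ} (hE : Sy E) (a b c v : V) : pf E a b c v < 4 := by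
  have h1 := hE.b a b v
  have h2 := hE.b a c v
  have h3 := hE.b b c v
  unfold pf
  unfold Bt at h1 h2 h3
  omega

section
variable {n : ℕ} {H : Finset (Finset (Fin n))}

theorem sum_u (a b c : Fin n) (i : ℕ) :
    ∑ v, u i (pf (tri H) a b c v) = (cj H a b c i : ℤ) := by
  unfold u cj
  rw [Finset.card_filter]
  push_cast
  rfl

theorem prod3 (x1 x2 y1 y2 z0 z2 : Fin n → ℤ) :
    ∑ d, ∑ e, ∑ f, (1 + (x1 d * x2 e + y2 d * y1 e) * (z0 f - z2 f)) =
      (n : ℤ) ^ 3 + ((∑ d, x1 d) * (∑ e, x2 e) + (∑ d, y2 d) * (∑ e, y1 e)) *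
        ((∑ f, z0 f) - ∑ f, z2 f) := by
  have h1 : ∀ d e : Fin n, ∑ f, (1 + (x1 d * x2 e + y2 d * y1 e) * (z0 f - z2 f)) =
      (n : ℤ) + (x1 d * x2 e + y2 d * y1 e) * ((∑ f, z0 f) - ∑ f, z2 f) := by
    intro d e
    rw [sum_add_distrib, ← mul_sum, sum_sub_distrib, sum_const, card_univ, Fintype.card_fin,
      nsmul_eq_mul, mul_one]
  simp only [h1]
  set Z := (∑ f, z0 f) - ∑ f, z2 f
  have h2 : ∀ d : Fin n, ∑ e, ((n : ℤ) + (x1 d * x2 e + y2 d * y1 e) * Z) =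
      (n : ℤ) ^ 2 + (x1 d * (∑ e, x2 e) + y2 d * (∑ e, y1 e)) * Z := by
    intro d
    rw [sum_add_distrib, ← sum_mul, sum_add_distrib, ← mul_sum, ← mul_sum, sum_const, card_univ,
      Fintype.card_fin, nsmul_eq_mul]
    ring
  simp only [h2]
  rw [sum_add_distrib, ← sum_mul, sum_add_distrib, ← sum_mul, ← sum_mul, sum_const, card_univ,
      Fintype.card_fin, nsmul_eq_mul]
  ring

end

namespace CA

theorem G_zero : ∀ p < 4, ∀ q < 4, ∀ r < 4, (G 0 p q r : ℤ) =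
    1 + (u 1 p * u 2 q + u 2 p * u 1 q) * (u 0 r - u 2 r) := by decide

theorem G_one : ∀ p < 4, ∀ q < 4, ∀ r < 4, (G 1 p q r : ℤ) = 1 := by decide

section
variable {n : ℕ} {H : Finset (Finset (Fin n))}

theorem sum_trm (a b c : Fin n) :
    ∑ d, ∑ e, ∑ f, (trm (tri H) G a b c d e f : ℤ) = (n : ℤ) ^ 3 +
      (if tri H a b c = 0 then
        2 * ((cj H a b c 1 : ℤ) * cj H a b c 2 * (cj H a b c 0 - cj H a b c 2)) else 0) := by
  have hE := tri_sy H
  unfold trm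
  rcases hE.b a b c with h | h
  · rw [h, if_pos rfl]
    have h1 : ∀ d e f : Fin n, (G 0 (pf (tri H) a b c d) (pf (tri H) a b c e)
        (pf (tri H) a b c f) : ℤ) = _ := fun d e f =>
      G_zero _ (pf_lt hE a b c d) _ (pf_lt hE a b c e) _ (pf_lt hE a b c f)
    simp only [h1]
    rw [prod3 (fun d => u 1 (pf (tri H) a b c d)) (fun d => u 2 (pf (tri H) a b c d))
      (fun d => u 1 (pf (tri H) a b c d)) (fun d => u 2 (pf (tri H) a b c d))
      (fun d => u 0 (pf (tri H) a b c d)) (fun d => u 2 (pf (tri H) a b c d))]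
    simp only [sum_u]
    ring
  · rw [h, if_neg one_ne_zero]
    have h1 : ∀ d e f : Fin n, (G 1 (pf (tri H) a b c d) (pf (tri H) a b c e)
        (pf (tri H) a b c f) : ℤ) = 1 := fun d e f =>
      G_one _ (pf_lt hE a b c d) _ (pf_lt hE a b c e) _ (pf_lt hE a b c f)
    simp only [h1, sum_const, card_univ, Fintype.card_fin, nsmul_eq_mul]
    ring

/-- the signed sum over the non-edges -/
noncomputable def sg (H : Finset (Finset (Fin n))) : ℤ :=
  ∑ T ∈ (univ : Finset (Fin n)).powersetCard 3 \ H,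
    (ext H 1 T : ℤ) * ext H 2 T * (ext H 0 T + 3 - ext H 2 T)

theorem sum_all (h3 : ∀ e ∈ H, e.card = 3) :
    ∑ a, ∑ b, ∑ c, ∑ d, ∑ e, ∑ f, (trm (tri H) G a b c d e f : ℤ) =
      (n : ℤ) ^ 6 + 12 * sg H := by
  simp only [sum_trm, sum_add_distrib]
  have h1 : ∑ _a : Fin n, ∑ _b : Fin n, ∑ _c : Fin n, (n : ℤ) ^ 3 = (n : ℤ) ^ 6 := by
    simp only [sum_const, card_univ, Fintype.card_fin, nsmul_eq_mul]
    ring
  rw [h1, sum_ord H _ (fun T => 2 * ((ext H 1 T : ℤ) * ext H 2 T * (ext H 0 T + 3 - ext H 2 T)))]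
  · rw [← mul_sum]
    unfold sg
    ring
  · intro a b c hd
    rw [cj_one h3 hd]
    split_ifs <;> simp
  · intro a b c _ _ _ hT
    rw [if_neg]
    rw [tri_iff.mpr hT]
    exact one_ne_zero
  · intro a b c hab hac hbc hT
    have h0 : tri H a b c = 0 := by
      rcases (tri_sy H).b a b c with h | h
      · exact h
      · exact absurd (tri_iff.mp h) hT
    rw [if_pos h0, cj_ext h3 hab hac hbc hT, cj_ext h3 hab hac hbc hT, cj_ext h3 hab hac hbc hT]
    rw [if_neg one_ne_zero, if_neg two_ne_zero, if_pos rfl]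
    push_cast
    ring

/-- the inequality with slack -/
theorem key (h3 : ∀ e ∈ H, e.card = 3) (hK : Turan34.K43Free H) :
    (NT (tri H) : ℤ) ≤ 364 * (5 * (n : ℤ) ^ 6 - 54 * ((n : ℤ) ^ 3 * H.card) - 432 * sg H) := by
  have h := main (tri_sy H) (tri_noK4 h3 hK)
  rw [sum_all h3, Fintype.card_fin] at h
  have h6 : (∑ a : Fin n, ∑ b : Fin n, ∑ c : Fin n, (tri H a b c : ℤ)) = 6 * (H.card : ℤ) := by
    have h7 := S3_tri h3
    have h8 : S3 (tri H) = ∑ a : Fin n, ∑ b : Fin n, ∑ c : Fin n, tri H a b c := rfl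
    rw [h8] at h7
    exact_mod_cast h7
  rw [h6] at h
  have h0 : (0 : ℤ) ≤ (NT (tri H) : ℤ) := by positivity
  have e1 : (n : ℤ) ^ 3 * (6 * (H.card : ℤ)) = 6 * ((n : ℤ) ^ 3 * H.card) := by ring
  rw [e1] at h
  generalize (n : ℤ) ^ 6 = N6 at h ⊢
  generalize (n : ℤ) ^ 3 * (H.card : ℤ) = X at h ⊢
  generalize sg H = Y at h ⊢
  generalize (NT (tri H) : ℤ) = Z at h h0 ⊢
  omega

end
end CA
end Pool.Agent.V1119.NE
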