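import Pool.Agent.V1119.NE.FinCD
import Pool.Agent.V1119.NE.LocA

/-! The inequality for the codegree sums of the triples. -/

set_option autoImplicit false
set_option maxRecDepth 100000
set_option maxHeartbeats 4000000
open Finset
open scoped Classical

namespace Pool.Agent.V1119.NE
open Pool.Agent.H122R2.N6 Pool.Agent.TH773 Pool.Agent.TH773.ST

section
variable {n : ℕ} {H : Finset (Finset (Fin n))}

theorem prodG (c : ℤ) (x1 x2 y1 y2 z : Fin n → ℤ) :
    ∑ d, ∑ e, ∑ f, (c + (x1 d * x2 e + y2 d * y1 e) * z f) =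
      c * (n : ℤ) ^ 3 + ((∑ d, x1 d) * (∑ e, x2 e) + (∑ d, y2 d) * (∑ e, y1 e)) *
        ∑ f, z f := by
  have hc : ∀ c : ℤ, ∑ _f : Fin n, c = (n : ℤ) * c := fun c => by
    rw [sum_const, card_univ, Fintype.card_fin, nsmul_eq_mul]
  have h1 : ∀ d e : Fin n, ∑ f, (c + (x1 d * x2 e + y2 d * y1 e) * z f) =
      (n : ℤ) * c + (x1 d * x2 e + y2 d * y1 e) * ∑ f, z f := by
    intro d e
    rw [sum_add_distrib, hc, ← mul_sum]
  simp only [h1]
  set Z := ∑ f, z f
  have h2 : ∀ d : Fin n, ∑ e, ((n : ℤ) * c + (x1 d * x2 e + y2 d * y1 e) * Z) =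
      (n : ℤ) * ((n : ℤ) * c) + (x1 d * (∑ e, x2 e) + y2 d * (∑ e, y1 e)) * Z := by
    intro d
    rw [sum_add_distrib, hc, ← sum_mul, sum_add_distrib, ← mul_sum, ← mul_sum]
  simp only [h2]
  rw [sum_add_distrib, hc, ← sum_mul, sum_add_distrib, ← sum_mul, ← sum_mul]
  ring

/-- the number of pairs of a vertex and an edge formed by it with two of `a`, `b`, `c` -/
noncomputable def spf (H : Finset (Finset (Fin n))) (a b c : Fin n) : ℕ := ∑ v, pf (tri H) a b c v

/-- the sum of the codegrees of the pairs in `T` -/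
noncomputable def codsum (H : Finset (Finset (Fin n))) (T : Finset (Fin n)) : ℕ :=
  ∑ p ∈ T.powersetCard 2, ((univ : Finset (Fin n)).filter fun z => insert z p ∈ H).card

theorem sum_tri' (H : Finset (Finset (Fin n))) (x y : Fin n) :
    ∑ z, tri H x y z = ((univ : Finset (Fin n)).filter fun z => insert z {x, y} ∈ H).card := by
  rw [card_filter]
  refine sum_congr rfl fun z _ => ?_
  rw [tri_ite]
  have e : ({x, y, z} : Finset (Fin n)) = insert z {x, y} := by
    ext v
    simp only [mem_insert, mem_singleton]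
    tauto
  rw [e]

theorem spf_codsum {a b c : Fin n} (hab : a ≠ b) (hac : a ≠ c) (hbc : b ≠ c) :
    spf H a b c = codsum H {a, b, c} := by
  have hp : ({a, b, c} : Finset (Fin n)).powersetCard 2 = {{a, b}, {a, c}, {b, c}} := by
    ext p
    rw [mem_powersetCard]
    simp only [mem_insert, mem_singleton]
    constructor
    · rintro ⟨h1, h2⟩
      obtain ⟨x, y, hxy, rfl⟩ := card_eq_two.mp h2
      have hx := h1 (mem_insert_self x {y})
      have hy := h1 (mem_insert_of_mem (mem_singleton_self y))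
      simp only [mem_insert, mem_singleton] at hx hy
      rcases hx with rfl | rfl | rfl <;> rcases hy with rfl | rfl | rfl
      · exact absurd rfl hxy
      · exact Or.inl rfl
      · exact Or.inr (Or.inl rfl)
      · exact Or.inl (pair_comm _ _)
      · exact absurd rfl hxy
      · exact Or.inr (Or.inr rfl)
      · exact Or.inr (Or.inl (pair_comm _ _))
      · exact Or.inr (Or.inr (pair_comm _ _))
      · exact absurd rfl hxy
    · rintro (rfl | rfl | rfl)
      · exact ⟨by intro v; simp only [mem_insert, mem_singleton]; tauto, card_pair hab⟩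
      · exact ⟨by intro v; simp only [mem_insert, mem_singleton]; tauto, card_pair hac⟩
      · exact ⟨by intro v; simp only [mem_insert, mem_singleton]; tauto, card_pair hbc⟩
  have n1 : ({a, b} : Finset (Fin n)) ∉ ({{a, c}, {b, c}} : Finset (Finset (Fin n))) := by
    simp only [mem_insert, mem_singleton, not_or]
    refine ⟨fun h => ?_, fun h => ?_⟩
    · have : b ∈ ({a, c} : Finset (Fin n)) := h ▸ mem_insert_of_mem (mem_singleton_self b)
      simp only [mem_insert, mem_singleton] at this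
      rcases this with h | h
      · exact hab h.symm
      · exact hbc h
    · have : a ∈ ({b, c} : Finset (Fin n)) := h ▸ mem_insert_self a {b}
      simp only [mem_insert, mem_singleton] at this
      rcases this with h | h
      · exact hab h
      · exact hac h
  have n2 : ({a, c} : Finset (Fin n)) ∉ ({{b, c}} : Finset (Finset (Fin n))) := by
    simp only [mem_singleton]
    intro h
    have : a ∈ ({b, c} : Finset (Fin n)) := h ▸ mem_insert_self a {c}
    simp only [mem_insert, mem_singleton] at this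
    rcases this with h | h
    · exact hab h
    · exact hac h
  unfold codsum spf
  rw [hp, sum_insert n1, sum_insert n2, sum_singleton, ← sum_tri', ← sum_tri', ← sum_tri',
    ← sum_add_distrib, ← sum_add_distrib]
  rfl

theorem pf_le2 (hN : NoK4 (tri H)) {a b c v : Fin n} (h : tri H a b c = 1) :
    pf (tri H) a b c v ≤ 2 := by
  have hE := tri_sy H
  have h0 := hN a b c v
  rcases hE.b a b v with h1 | h1 <;> rcases hE.b a c v with h2 | h2 <;>
    rcases hE.b b c v with h3 | h3 <;> unfold pf <;> try omega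
  rw [h, h1, h2, h3] at h0
  exact absurd h0 (by decide)

end

namespace CD

theorem G_zero : ∀ p < 4, ∀ q < 4, ∀ r < 4, (G 0 p q r : ℤ) =
    40 + (u 1 p * u 2 q + u 2 p * u 1 q) * (5 - 3 * (r : ℤ)) := by decide

theorem G_one : ∀ p < 3, ∀ q < 3, ∀ r < 3, (G 1 p q r : ℤ) =
    40 + (2 * (2 - (p : ℤ)) * (2 - (q : ℤ)) + 0 * 0) * (3 * (r : ℤ) - 5) := by decide

section
variable {n : ℕ} {H : Finset (Finset (Fin n))}

theorem sum_trm (hN : NoK4 (tri H)) (a b c : Fin n) :
    ∑ d, ∑ e, ∑ f, (trm (tri H) G a b c d e f : ℤ) = 40 * (n : ℤ) ^ 3 +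
      ((if tri H a b c = 0 then
        2 * ((cj H a b c 1 : ℤ) * cj H a b c 2 * (5 * (n : ℤ) - 3 * spf H a b c)) else 0) +
      (if tri H a b c = 1 then
        2 * ((2 * (n : ℤ) - spf H a b c) ^ 2 * (3 * (spf H a b c : ℤ) - 5 * (n : ℤ))) else 0)) := by
  have hE := tri_sy H
  have hs : ∑ v, (pf (tri H) a b c v : ℤ) = (spf H a b c : ℤ) := by
    unfold spf
    push_cast
    rfl
  have hcc : ∀ c : ℤ, ∑ _f : Fin n, c = (n : ℤ) * c := fun c => by
    rw [sum_const, card_univ, Fintype.card_fin, nsmul_eq_mul]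
  unfold trm
  rcases hE.b a b c with h | h
  · rw [h, if_pos rfl, if_neg (by decide : ¬ (0 : ℕ) = 1)]
    have h1 : ∀ d e f : Fin n, (G 0 (pf (tri H) a b c d) (pf (tri H) a b c e)
        (pf (tri H) a b c f) : ℤ) = _ := fun d e f =>
      G_zero _ (pf_lt hE a b c d) _ (pf_lt hE a b c e) _ (pf_lt hE a b c f)
    simp only [h1]
    rw [prodG 40 (fun d => u 1 (pf (tri H) a b c d)) (fun d => u 2 (pf (tri H) a b c d))
      (fun d => u 1 (pf (tri H) a b c d)) (fun d => u 2 (pf (tri H) a b c d))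
      (fun d => 5 - 3 * (pf (tri H) a b c d : ℤ))]
    simp only [sum_u]
    rw [sum_sub_distrib, hcc, ← mul_sum, hs]
    ring
  · rw [h, if_neg one_ne_zero, if_pos rfl]
    have h1 : ∀ d e f : Fin n, (G 1 (pf (tri H) a b c d) (pf (tri H) a b c e)
        (pf (tri H) a b c f) : ℤ) = _ := fun d e f =>
      G_one _ (Nat.lt_succ_of_le (pf_le2 hN h)) _ (Nat.lt_succ_of_le (pf_le2 hN h)) _
        (Nat.lt_succ_of_le (pf_le2 hN h))
    simp only [h1]
    rw [prodG 40 (fun d => 2 * (2 - (pf (tri H) a b c d : ℤ))) (fun d => 2 - (pf (tri H) a b c d : ℤ))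
      (fun _ => 0) (fun _ => 0) (fun d => 3 * (pf (tri H) a b c d : ℤ) - 5)]
    rw [← mul_sum, sum_sub_distrib, sum_sub_distrib, ← mul_sum, hs]
    simp only [hcc]
    ring

/-- the signed sum over the triples -/
noncomputable def sg (H : Finset (Finset (Fin n))) : ℤ :=
  (∑ T ∈ (univ : Finset (Fin n)).powersetCard 3 \ H,
    (ext H 1 T : ℤ) * ext H 2 T * (5 * (n : ℤ) - 3 * codsum H T)) +
  ∑ T ∈ H, (2 * (n : ℤ) - codsum H T) ^ 2 * (3 * (codsum H T : ℤ) - 5 * (n : ℤ))

theorem sum_all (h3 : ∀ e ∈ H, e.card = 3) (hN : NoK4 (tri H)) :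
    ∑ a, ∑ b, ∑ c, ∑ d, ∑ e, ∑ f, (trm (tri H) G a b c d e f : ℤ) =
      40 * (n : ℤ) ^ 6 + 12 * sg H := by
  simp only [sum_trm hN, sum_add_distrib]
  have h1 : ∑ _a : Fin n, ∑ _b : Fin n, ∑ _c : Fin n, 40 * (n : ℤ) ^ 3 = 40 * (n : ℤ) ^ 6 := by
    simp only [sum_const, card_univ, Fintype.card_fin, nsmul_eq_mul]
    ring
  rw [h1, sum_ord H _ (fun T => 2 * ((ext H 1 T : ℤ) * ext H 2 T * (5 * (n : ℤ) - 3 * codsum H T))),
    sum_ord ((univ : Finset (Fin n)).powersetCard 3 \ H) _
      (fun T => 2 * ((2 * (n : ℤ) - codsum H T) ^ 2 * (3 * (codsum H T : ℤ) - 5 * (n : ℤ))))]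
  · have e1 : (univ : Finset (Fin n)).powersetCard 3 \ ((univ : Finset (Fin n)).powersetCard 3 \ H) = H := by
      ext e
      simp only [mem_sdiff, mem_powersetCard, subset_univ, true_and, not_and, not_not]
      constructor
      · rintro ⟨h1, h2⟩
        exact h2 h1
      · intro h
        exact ⟨h3 e h, fun _ => h⟩
    rw [e1, ← mul_sum, ← mul_sum]
    unfold sg
    ring
  · intro a b c hd
    rw [if_neg]
    intro h
    exact hd (by
      have h2 := h3 _ (tri_iff.mp h)
      refine ⟨?_, ?_, ?_⟩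
      · rintro rfl
        have : ({a, a, c} : Finset (Fin n)).card ≤ 2 := by
          rw [insert_eq_of_mem (mem_insert_self _ _)]; exact card_le_two
        omega
      · rintro rfl
        have : ({a, b, a} : Finset (Fin n)).card ≤ 2 := by
          rw [insert_comm, insert_eq_of_mem (mem_singleton_self _)]; exact card_le_two
        omega
      · rintro rfl
        have : ({a, b, b} : Finset (Fin n)).card ≤ 2 := by
          rw [insert_eq_of_mem (mem_singleton_self b)]; exact card_le_two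
        omega)
  · intro a b c _ _ _ hT
    rw [if_neg]
    intro h
    exact (mem_sdiff.mp hT).2 (tri_iff.mp h)
  · intro a b c hab hac hbc hT
    have hc : ({a, b, c} : Finset (Fin n)).card = 3 := by
      rw [card_insert_of_notMem, card_insert_of_notMem, card_singleton]
      · simpa using hbc
      · simp [hab, hac]
    have hTH : ({a, b, c} : Finset (Fin n)) ∈ H := by
      by_contra h
      exact hT (mem_sdiff.mpr ⟨mem_powersetCard.mpr ⟨subset_univ _, hc⟩, h⟩)
    rw [if_pos (tri_iff.mpr hTH), spf_codsum hab hac hbc]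
  · intro a b c hd
    rw [cj_one h3 hd]
    split_ifs <;> simp
  · intro a b c _ _ _ hT
    rw [if_neg]
    rw [tri_iff.mpr hT]
    exact one_ne_zero
  · intro a b c hab hac hbc hT
    have h0 : tri H a b c = 0 := by
      rcases (tri_sy H).b a b c with h | h
      · exact h
      · exact absurd (tri_iff.mp h) hT
    rw [if_pos h0, cj_ext h3 hab hac hbc hT, cj_ext h3 hab hac hbc hT, spf_codsum hab hac hbc]
    rw [if_neg one_ne_zero, if_neg two_ne_zero]
    push_cast
    ring

/-- the inequality with slack -/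
theorem key (h3 : ∀ e ∈ H, e.card = 3) (hK : Turan34.K43Free H) :
    (NT (tri H) : ℤ) ≤ 146 * (5 * (n : ℤ) ^ 6 - 54 * ((n : ℤ) ^ 3 * H.card) - 81 * sg H) := by
  have h := main (tri_sy H) (tri_noK4 h3 hK)
  rw [sum_all h3 (tri_noK4 h3 hK), Fintype.card_fin] at h
  have h6 : (∑ a : Fin n, ∑ b : Fin n, ∑ c : Fin n, (tri H a b c : ℤ)) = 6 * (H.card : ℤ) := by
    have h7 := S3_tri h3
    have h8 : S3 (tri H) = ∑ a : Fin n, ∑ b : Fin n, ∑ c : Fin n, tri H a b c := rfl
    rw [h8] at h7
    exact_mod_cast h7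
  rw [h6] at h
  have h0 : (0 : ℤ) ≤ (NT (tri H) : ℤ) := by positivity
  have e1 : (n : ℤ) ^ 3 * (6 * (H.card : ℤ)) = 6 * ((n : ℤ) ^ 3 * H.card) := by ring
  rw [e1] at h
  generalize (n : ℤ) ^ 6 = N6 at h ⊢
  generalize (n : ℤ) ^ 3 * (H.card : ℤ) = X at h ⊢
  generalize sg H = Y at h ⊢
  generalize (NT (tri H) : ℤ) = Z at h h0 ⊢
  omega

end
end CD
end Pool.Agent.V1119.NE
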