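import Pool.Agent.V1119.NE.FinCE
import Pool.Agent.V1119.NE.CodS

/-! The inequality for the codegree sums of the triples. -/

set_option autoImplicit false
set_option maxRecDepth 100000
set_option maxHeartbeats 4000000
open Finset
open scoped Classical

namespace Pool.Agent.V1119.NE2
open Pool.Agent.V1119.NE
open Pool.Agent.H122R2.N6 Pool.Agent.TH773 Pool.Agent.TH773.ST

namespace CE
open Pool.Agent.V1119.NE.CE

theorem G_zero : ∀ p < 4, ∀ q < 4, ∀ r < 4, (G 0 p q r : ℤ) =
    400 + (u 1 p * u 2 q + u 2 p * u 1 q) * (42 - 25 * (r : ℤ)) := by decide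

theorem G_one : ∀ p < 3, ∀ q < 3, ∀ r < 3, (G 1 p q r : ℤ) =
    400 + (20 * (2 - (p : ℤ)) * (2 - (q : ℤ)) + 0 * 0) * (3 * (r : ℤ) - 5) := by decide

section
variable {n : ℕ} {H : Finset (Finset (Fin n))}

theorem sum_trm (hN : NoK4 (tri H)) (a b c : Fin n) :
    ∑ d, ∑ e, ∑ f, (trm (tri H) G a b c d e f : ℤ) = 400 * (n : ℤ) ^ 3 +
      ((if tri H a b c = 0 then
        2 * ((cj H a b c 1 : ℤ) * cj H a b c 2 * (42 * (n : ℤ) - 25 * spf H a b c)) else 0) +
      (if tri H a b c = 1 then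
        20 * ((2 * (n : ℤ) - spf H a b c) ^ 2 * (3 * (spf H a b c : ℤ) - 5 * (n : ℤ))) else 0)) := by
  have hE := tri_sy H
  have hs : ∑ v, (pf (tri H) a b c v : ℤ) = (spf H a b c : ℤ) := by
    unfold spf
    push_cast
    rfl
  have hcc : ∀ c : ℤ, ∑ _f : Fin n, c = (n : ℤ) * c := fun c => by
    rw [sum_const, card_univ, Fintype.card_fin, nsmul_eq_mul]
  unfold trm
  rcases hE.b a b c with h | h
  · rw [h, if_pos rfl, if_neg (by decide : ¬ (0 : ℕ) = 1)]
    have h1 : ∀ d e f : Fin n, (G 0 (pf (tri H) a b c d) (pf (tri H) a b c e)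
        (pf (tri H) a b c f) : ℤ) = _ := fun d e f =>
      G_zero _ (pf_lt hE a b c d) _ (pf_lt hE a b c e) _ (pf_lt hE a b c f)
    simp only [h1]
    rw [prodG 400 (fun d => u 1 (pf (tri H) a b c d)) (fun d => u 2 (pf (tri H) a b c d))
      (fun d => u 1 (pf (tri H) a b c d)) (fun d => u 2 (pf (tri H) a b c d))
      (fun d => 42 - 25 * (pf (tri H) a b c d : ℤ))]
    simp only [sum_u]
    rw [sum_sub_distrib, hcc, ← mul_sum, hs]
    ring
  · rw [h, if_neg one_ne_zero, if_pos rfl]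
    have h1 : ∀ d e f : Fin n, (G 1 (pf (tri H) a b c d) (pf (tri H) a b c e)
        (pf (tri H) a b c f) : ℤ) = _ := fun d e f =>
      G_one _ (Nat.lt_succ_of_le (pf_le2 hN h)) _ (Nat.lt_succ_of_le (pf_le2 hN h)) _
        (Nat.lt_succ_of_le (pf_le2 hN h))
    simp only [h1]
    rw [prodG 400 (fun d => 20 * (2 - (pf (tri H) a b c d : ℤ))) (fun d => 2 - (pf (tri H) a b c d : ℤ))
      (fun _ => 0) (fun _ => 0) (fun d => 3 * (pf (tri H) a b c d : ℤ) - 5)]
    rw [← mul_sum, sum_sub_distrib, sum_sub_distrib, ← mul_sum, hs]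
    simp only [hcc]
    ring

/-- the signed sum over the triples -/
noncomputable def sg (H : Finset (Finset (Fin n))) : ℤ :=
  (∑ T ∈ (univ : Finset (Fin n)).powersetCard 3 \ H,
    (ext H 1 T : ℤ) * ext H 2 T * (42 * (n : ℤ) - 25 * codsum H T)) +
  ∑ T ∈ H, 10 * ((2 * (n : ℤ) - codsum H T) ^ 2 * (3 * (codsum H T : ℤ) - 5 * (n : ℤ)))

theorem sum_all (h3 : ∀ e ∈ H, e.card = 3) (hN : NoK4 (tri H)) :
    ∑ a, ∑ b, ∑ c, ∑ d, ∑ e, ∑ f, (trm (tri H) G a b c d e f : ℤ) =
      400 * (n : ℤ) ^ 6 + 12 * sg H := by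
  simp only [sum_trm hN, sum_add_distrib]
  have h1 : ∑ _a : Fin n, ∑ _b : Fin n, ∑ _c : Fin n, 400 * (n : ℤ) ^ 3 = 400 * (n : ℤ) ^ 6 := by
    simp only [sum_const, card_univ, Fintype.card_fin, nsmul_eq_mul]
    ring
  rw [h1, sum_ord H _ (fun T => 2 * ((ext H 1 T : ℤ) * ext H 2 T * (42 * (n : ℤ) - 25 * codsum H T))),
    sum_ord ((univ : Finset (Fin n)).powersetCard 3 \ H) _
      (fun T => 20 * ((2 * (n : ℤ) - codsum H T) ^ 2 * (3 * (codsum H T : ℤ) - 5 * (n : ℤ))))]
  · have e1 : (univ : Finset (Fin n)).powersetCard 3 \ ((univ : Finset (Fin n)).powersetCard 3 \ H) = H := by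
      ext e
      simp only [mem_sdiff, mem_powersetCard, subset_univ, true_and, not_and, not_not]
      constructor
      · rintro ⟨h1, h2⟩
        exact h2 h1
      · intro h
        exact ⟨h3 e h, fun _ => h⟩
    rw [e1, ← mul_sum, ← mul_sum]
    unfold sg
    rw [← mul_sum]
    ring
  · intro a b c hd
    rw [if_neg]
    intro h
    exact hd (by
      have h2 := h3 _ (tri_iff.mp h)
      refine ⟨?_, ?_, ?_⟩
      · rintro rfl
        have : ({a, a, c} : Finset (Fin n)).card ≤ 2 := by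
          rw [insert_eq_of_mem (mem_insert_self _ _)]; exact card_le_two
        omega
      · rintro rfl
        have : ({a, b, a} : Finset (Fin n)).card ≤ 2 := by
          rw [insert_comm, insert_eq_of_mem (mem_singleton_self _)]; exact card_le_two
        omega
      · rintro rfl
        have : ({a, b, b} : Finset (Fin n)).card ≤ 2 := by
          rw [insert_eq_of_mem (mem_singleton_self b)]; exact card_le_two
        omega)
  · intro a b c _ _ _ hT
    rw [if_neg]
    intro h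
    exact (mem_sdiff.mp hT).2 (tri_iff.mp h)
  · intro a b c hab hac hbc hT
    have hc : ({a, b, c} : Finset (Fin n)).card = 3 := by
      rw [card_insert_of_notMem, card_insert_of_notMem, card_singleton]
      · simpa using hbc
      · simp [hab, hac]
    have hTH : ({a, b, c} : Finset (Fin n)) ∈ H := by
      by_contra h
      exact hT (mem_sdiff.mpr ⟨mem_powersetCard.mpr ⟨subset_univ _, hc⟩, h⟩)
    rw [if_pos (tri_iff.mpr hTH), spf_codsum hab hac hbc]
  · intro a b c hd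
    rw [cj_one h3 hd]
    split_ifs <;> simp
  · intro a b c _ _ _ hT
    rw [if_neg]
    rw [tri_iff.mpr hT]
    exact one_ne_zero
  · intro a b c hab hac hbc hT
    have h0 : tri H a b c = 0 := by
      rcases (tri_sy H).b a b c with h | h
      · exact h
      · exact absurd (tri_iff.mp h) hT
    rw [if_pos h0, cj_ext h3 hab hac hbc hT, cj_ext h3 hab hac hbc hT, spf_codsum hab hac hbc]
    rw [if_neg one_ne_zero, if_neg two_ne_zero]
    push_cast
    ring

/-- the inequality with slack -/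
theorem key (h3 : ∀ e ∈ H, e.card = 3) (hK : Turan34.K43Free H) :
    (NT (tri H) : ℤ) ≤ 49 * (50 * (n : ℤ) ^ 6 - 540 * ((n : ℤ) ^ 3 * H.card) - 81 * sg H) := by
  have h := main (tri_sy H) (tri_noK4 h3 hK)
  rw [sum_all h3 (tri_noK4 h3 hK), Fintype.card_fin] at h
  have h6 : (∑ a : Fin n, ∑ b : Fin n, ∑ c : Fin n, (tri H a b c : ℤ)) = 6 * (H.card : ℤ) := by
    have h7 := S3_tri h3
    have h8 : S3 (tri H) = ∑ a : Fin n, ∑ b : Fin n, ∑ c : Fin n, tri H a b c := rfl
    rw [h8] at h7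
    exact_mod_cast h7
  rw [h6] at h
  have h0 : (0 : ℤ) ≤ (NT (tri H) : ℤ) := by positivity
  have e1 : (n : ℤ) ^ 3 * (6 * (H.card : ℤ)) = 6 * ((n : ℤ) ^ 3 * H.card) := by ring
  rw [e1] at h
  generalize (n : ℤ) ^ 6 = N6 at h ⊢
  generalize (n : ℤ) ^ 3 * (H.card : ℤ) = X at h ⊢
  generalize sg H = Y at h ⊢
  generalize (NT (tri H) : ℤ) = Z at h h0 ⊢
  omega

end
end CE
end Pool.Agent.V1119.NE2
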