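import Pool.Agent.V1119.NE.LocA
import Pool.Agent.V1119.CG.Slk

/-! The inequality for the extensions of the non-edges: density, stability and Turán's construction. -/

set_option autoImplicit false
set_option maxRecDepth 100000
set_option maxHeartbeats 4000000
open Finset
open scoped Classical

namespace Pool.Agent.V1119.NE
open Pool.Agent.H122R2.N6 Pool.Agent.TH773 Pool.Agent.TH773.ST

section
variable {n : ℕ}

/-- stability from an inequality with slack -/
theorem stab_of (H : Finset (Finset (Fin n))) (h3 : ∀ e ∈ H, e.card = 3)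
    (hK : Turan34.K43Free H) (W : ℤ) (hW : 0 ≤ W)
    (h : (NT (tri H) : ℤ) ≤ 364 * (5 * (n : ℤ) ^ 6 - 54 * ((n : ℤ) ^ 3 * H.card) + 432 * W)) :
    ∃ g : Fin n → Fin 3, (n : ℝ) ^ 3 * ((symmDiff H (Turan34.turan g)).card : ℝ) ≤
      2113413120 * (5 / 54 * (n : ℝ) ^ 6 - (n : ℝ) ^ 3 * H.card + 8 * (W : ℝ)) := by
  have hE := tri_sy H
  have hN := tri_noK4 h3 hK
  obtain ⟨g, hg⟩ := Pool.Agent.V1119.CG.stabG hE hN
  refine ⟨g, ?_⟩
  have h6 := six_card_le h3
  have hsd := six_symm_le h3 g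
  rw [Fintype.card_fin] at hg
  have hb := bad_le (E := tri H) g
  rw [Fintype.card_fin] at hb
  have hsd' : (6 : ℝ) * ((symmDiff H (Turan34.turan g)).card : ℝ) ≤ (bad (tri H) g : ℝ) := by
    exact_mod_cast hsd
  have hbn : (bad (tri H) g : ℝ) ≤ (n : ℝ) ^ 3 := by exact_mod_cast hb
  have h7 : (6 : ℝ) * H.card ≤ ((∑ a, ∑ b, ∑ c, tri H a b c : ℕ) : ℝ) := by exact_mod_cast h6
  have h' : (NT (tri H) : ℝ) ≤ 364 * (5 * (n : ℝ) ^ 6 - 54 * ((n : ℝ) ^ 3 * H.card) + 432 * (W : ℝ)) := by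
    exact_mod_cast h
  have hW' : (0 : ℝ) ≤ (W : ℝ) := by exact_mod_cast hW
  have hn3 : (0 : ℝ) ≤ (n : ℝ) ^ 3 := by positivity
  have hn6 : (0 : ℝ) ≤ (n : ℝ) ^ 6 := by positivity
  have h15 := mul_le_mul_of_nonneg_left hsd' hn3
  have h16 := mul_le_mul_of_nonneg_left h7 hn3
  set S : ℝ := ((∑ a, ∑ b, ∑ c, tri H a b c : ℕ) : ℝ) with hSd
  have e1 : (n : ℝ) ^ 3 * (6 * ((symmDiff H (Turan34.turan g)).card : ℝ)) =
      6 * ((n : ℝ) ^ 3 * ((symmDiff H (Turan34.turan g)).card : ℝ)) := by ring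
  have e2 : (n : ℝ) ^ 3 * (6 * (H.card : ℝ)) = 6 * ((n : ℝ) ^ 3 * H.card) := by ring
  rw [e1] at h15
  rw [e2] at h16
  rcases hg with hg | hg
  · have hg' : 1000 * ((n : ℝ) ^ 3 * S) ≤ 550 * (n : ℝ) ^ 6 := by
      rw [hSd]
      exact_mod_cast hg
    have h12 : (n : ℝ) ^ 3 * (bad (tri H) g : ℝ) ≤ (n : ℝ) ^ 6 := by
      calc (n : ℝ) ^ 3 * (bad (tri H) g : ℝ) ≤ (n : ℝ) ^ 3 * (n : ℝ) ^ 3 :=
            mul_le_mul_of_nonneg_left hbn (by positivity)
        _ = _ := by ring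
    linarith
  · have hg' : (n : ℝ) ^ 3 * (bad (tri H) g : ℝ) ≤ 645120 * (NT (tri H) : ℝ) := by exact_mod_cast hg
    linarith

/-- the number of edges -/
theorem densityA (H : Finset (Finset (Fin n))) (h3 : ∀ e ∈ H, e.card = 3)
    (hK : Turan34.K43Free H) :
    (n : ℝ) ^ 3 * H.card ≤ 5 / 54 * (n : ℝ) ^ 6 +
      8 * ∑ T ∈ (univ : Finset (Fin n)).powersetCard 3 \ H,
        (ext H 1 T : ℝ) * ext H 2 T * ((ext H 2 T : ℝ) - ext H 0 T - 3) := by
  have h := CA.key h3 hK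
  have h0 : (0 : ℤ) ≤ (NT (tri H) : ℤ) := by positivity
  have h' : (0 : ℝ) ≤ 364 * (5 * (n : ℝ) ^ 6 - 54 * ((n : ℝ) ^ 3 * H.card) - 432 * (CA.sg H : ℝ)) := by
    exact_mod_cast h0.trans h
  have e1 : (CA.sg H : ℝ) = - ∑ T ∈ (univ : Finset (Fin n)).powersetCard 3 \ H,
        (ext H 1 T : ℝ) * ext H 2 T * ((ext H 2 T : ℝ) - ext H 0 T - 3) := by
    unfold CA.sg
    push_cast
    rw [← sum_neg_distrib]
    refine sum_congr rfl fun T _ => ?_
    ring
  rw [e1] at h'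
  linarith

/-- stability -/
theorem stabilityA (H : Finset (Finset (Fin n))) (h3 : ∀ e ∈ H, e.card = 3)
    (hK : Turan34.K43Free H) :
    ∃ g : Fin n → Fin 3, (n : ℝ) ^ 3 * ((symmDiff H (Turan34.turan g)).card : ℝ) ≤
      2113413120 * (5 / 54 * (n : ℝ) ^ 6 - (n : ℝ) ^ 3 * H.card +
        8 * ((∑ T ∈ (univ : Finset (Fin n)).powersetCard 3 \ H,
          ext H 1 T * ext H 2 T * (ext H 2 T - (ext H 0 T + 3)) : ℕ) : ℝ)) := by
  have h := CA.key h3 hK
  obtain ⟨g, hg⟩ := stab_of H h3 hK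
    ((∑ T ∈ (univ : Finset (Fin n)).powersetCard 3 \ H,
          ext H 1 T * ext H 2 T * (ext H 2 T - (ext H 0 T + 3)) : ℕ) : ℤ) (by positivity) (by
      refine h.trans ?_
      have h1 : - CA.sg H ≤ ((∑ T ∈ (univ : Finset (Fin n)).powersetCard 3 \ H,
          ext H 1 T * ext H 2 T * (ext H 2 T - (ext H 0 T + 3)) : ℕ) : ℤ) := by
        unfold CA.sg
        rw [← sum_neg_distrib, Nat.cast_sum]
        refine sum_le_sum fun T _ => ?_
        push_cast
        rw [← mul_neg]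
        refine mul_le_mul_of_nonneg_left ?_ (by positivity)
        omega
      linarith)
  exact ⟨g, by exact_mod_cast hg⟩

/-- the colours of a triple outside Turán's construction -/
theorem rf_pf : ∀ a b c d : Fin 3, Rf a b c = 0 →
    Rf a b d + Rf a c d + Rf b c d ≠ 1 := by decide

/-- no four vertices of Turán's construction span exactly one edge -/
theorem ext_turan (g : Fin n → Fin 3) (T : Finset (Fin n)) (hT : T.card = 3)
    (hTn : T ∉ Turan34.turan g) : ext (Turan34.turan g) 1 T = 0 := by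
  obtain ⟨a, b, c, hab, hac, hbc, rfl⟩ := card_eq_three.mp hT
  unfold ext
  rw [card_eq_zero, filter_eq_empty_iff]
  rintro v - ⟨hv, h1⟩
  simp only [mem_insert, mem_singleton, not_or] at hv
  rw [pfc (fun e he => turan_card he) hab hac hbc hv.1 hv.2.1 hv.2.2] at h1
  rw [mem_turan hab hac hbc] at hTn
  have h0 : Rf (g a) (g b) (g c) = 0 := by
    rcases Rf_sy.b (g a) (g b) (g c) with h | h
    · exact h
    · exact absurd h hTn
  have h5 := rf_pf _ _ _ (g v) h0
  unfold pf at h1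
  have t1 : ∀ x y : Fin n, x ≠ y → v ≠ x → v ≠ y →
      tri (Turan34.turan g) x y v = Rf (g x) (g y) (g v) := by
    intro x y hxy hx hy
    rw [tri_ite]
    rcases Rf_sy.b (g x) (g y) (g v) with h | h
    · rw [h, if_neg]
      rw [mem_turan hxy (Ne.symm hx) (Ne.symm hy), h]
      exact zero_ne_one
    · rw [h, if_pos]
      rw [mem_turan hxy (Ne.symm hx) (Ne.symm hy), h]
  have t0 : tri (Turan34.turan g) a b c = 0 := by
    rw [tri_ite, if_neg]
    rwa [mem_turan hab hac hbc]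
  rw [t0, t1 a b hab hv.1 hv.2.1, t1 a c hac hv.1 hv.2.2, t1 b c hbc hv.2.1 hv.2.2,
    Nat.zero_add] at h1
  exact h5 (by omega)

/-- the local condition for the non-edges -/
theorem localA (H : Finset (Finset (Fin n))) (h3 : ∀ e ∈ H, e.card = 3)
    (hK : Turan34.K43Free H)
    (hl : ∀ T : Finset (Fin n), T.card = 3 → T ∉ H → ext H 1 T ≠ 0 → ext H 2 T ≤ ext H 0 T + 3) :
    (H.card : ℝ) ≤ 5 / 54 * (n : ℝ) ^ 3 ∧
    ∃ g : Fin n → Fin 3, ((symmDiff H (Turan34.turan g)).card : ℝ) ≤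
      2113413120 * (5 / 54 * (n : ℝ) ^ 3 - H.card) := by
  have hv : ∑ T ∈ (univ : Finset (Fin n)).powersetCard 3 \ H,
      ext H 1 T * ext H 2 T * (ext H 2 T - (ext H 0 T + 3)) = 0 := by
    refine sum_eq_zero fun T hT => ?_
    obtain ⟨h1, h2⟩ := mem_sdiff.mp hT
    have h4 := (mem_powersetCard.mp h1).2
    by_cases h5 : ext H 1 T = 0
    · rw [h5, Nat.zero_mul, Nat.zero_mul]
    · rw [Nat.sub_eq_zero_of_le (hl T h4 h2 h5), Nat.mul_zero]
  obtain ⟨g, hg⟩ := stabilityA H h3 hK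
  rw [hv] at hg
  have key : ((symmDiff H (Turan34.turan g)).card : ℝ) ≤
      2113413120 * (5 / 54 * (n : ℝ) ^ 3 - H.card) := by
    rcases Nat.eq_zero_or_pos n with hn | hn
    · subst hn
      have h6 := six_card_le h3
      have hsd := six_symm_le h3 g
      have h7 : ∑ a, ∑ b, ∑ c, tri H a b c = 0 := by
        rw [univ_eq_empty, sum_empty]
      have : H.card = 0 := by omega
      have hb : bad (tri H) g ≤ 0 := by
        refine (bad_le (E := tri H) g).trans ?_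
        rw [Fintype.card_fin]; norm_num
      have : (symmDiff H (Turan34.turan g)).card = 0 := by omega
      rw [this]
      simp_all
    · have hn' : (0 : ℝ) < (n : ℝ) ^ 3 := by positivity
      refine le_of_mul_le_mul_left (hg.trans (le_of_eq ?_)) hn'
      push_cast
      ring
  refine ⟨?_, g, key⟩
  have h0 : (0 : ℝ) ≤ ((symmDiff H (Turan34.turan g)).card : ℝ) := by positivity
  linarith

end
end Pool.Agent.V1119.NE
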