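import Pool.Agent.V1119.NE.LocB
import Pool.Agent.V1119.CG.Slk
import Pool.Agent.V1119.NE.Cov

/-! The inequality for the complete extensions of the edges of coverings. -/

set_option autoImplicit false
set_option maxRecDepth 100000
set_option maxHeartbeats 4000000
open Finset
open scoped Classical

namespace Pool.Agent.V1119.NE
open Pool.Agent.H122R2.N6 Pool.Agent.TH773 Pool.Agent.TH773.ST Pool.Agent.TH773.Cov

section
variable {n : ℕ}

/-- stability from an inequality with slack -/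
theorem stab_gen (H : Finset (Finset (Fin n))) (h3 : ∀ e ∈ H, e.card = 3)
    (hK : Turan34.K43Free H) (K D : ℝ) (hK1 : 1 ≤ K) (hD : 0 ≤ D)
    (h : (NT (tri H) : ℝ) ≤ K * (5 * (n : ℝ) ^ 6 - 54 * ((n : ℝ) ^ 3 * H.card) + D)) :
    ∃ g : Fin n → Fin 3, (n : ℝ) ^ 3 * ((symmDiff H (Turan34.turan g)).card : ℝ) ≤
      107520 * K * (5 * (n : ℝ) ^ 6 - 54 * ((n : ℝ) ^ 3 * H.card) + D) := by
  have hE := tri_sy H
  have hN := tri_noK4 h3 hK
  obtain ⟨g, hg⟩ := Pool.Agent.V1119.CG.stabG hE hN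
  refine ⟨g, ?_⟩
  have h6 := six_card_le h3
  have hsd := six_symm_le h3 g
  rw [Fintype.card_fin] at hg
  have hb := bad_le (E := tri H) g
  rw [Fintype.card_fin] at hb
  have hsd' : (6 : ℝ) * ((symmDiff H (Turan34.turan g)).card : ℝ) ≤ (bad (tri H) g : ℝ) := by
    exact_mod_cast hsd
  have hbn : (bad (tri H) g : ℝ) ≤ (n : ℝ) ^ 3 := by exact_mod_cast hb
  have h7 : (6 : ℝ) * H.card ≤ ((∑ a, ∑ b, ∑ c, tri H a b c : ℕ) : ℝ) := by exact_mod_cast h6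
  have hn3 : (0 : ℝ) ≤ (n : ℝ) ^ 3 := by positivity
  have hn6 : (0 : ℝ) ≤ (n : ℝ) ^ 6 := by positivity
  have h15 := mul_le_mul_of_nonneg_left hsd' hn3
  have h16 := mul_le_mul_of_nonneg_left h7 hn3
  set S : ℝ := ((∑ a, ∑ b, ∑ c, tri H a b c : ℕ) : ℝ) with hSd
  have e1 : (n : ℝ) ^ 3 * (6 * ((symmDiff H (Turan34.turan g)).card : ℝ)) =
      6 * ((n : ℝ) ^ 3 * ((symmDiff H (Turan34.turan g)).card : ℝ)) := by ring
  have e2 : (n : ℝ) ^ 3 * (6 * (H.card : ℝ)) = 6 * ((n : ℝ) ^ 3 * H.card) := by ring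
  rw [e1] at h15
  rw [e2] at h16
  rcases hg with hg | hg
  · have hg' : 1000 * ((n : ℝ) ^ 3 * S) ≤ 550 * (n : ℝ) ^ 6 := by
      rw [hSd]
      exact_mod_cast hg
    have h12 : (n : ℝ) ^ 3 * (bad (tri H) g : ℝ) ≤ (n : ℝ) ^ 6 := by
      calc (n : ℝ) ^ 3 * (bad (tri H) g : ℝ) ≤ (n : ℝ) ^ 3 * (n : ℝ) ^ 3 :=
            mul_le_mul_of_nonneg_left hbn (by positivity)
        _ = _ := by ring
    have h17 : (n : ℝ) ^ 6 ≤ 20 * (5 * (n : ℝ) ^ 6 - 54 * ((n : ℝ) ^ 3 * H.card) + D) := by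
      linarith
    have h18 : 0 ≤ 5 * (n : ℝ) ^ 6 - 54 * ((n : ℝ) ^ 3 * H.card) + D := by linarith
    have h19 := mul_le_mul_of_nonneg_right hK1 h18
    linarith
  · have hg' : (n : ℝ) ^ 3 * (bad (tri H) g : ℝ) ≤ 645120 * (NT (tri H) : ℝ) := by exact_mod_cast hg
    linarith

theorem densityB (H : Finset (Finset (Fin n))) (h3 : ∀ e ∈ H, e.card = 3)
    (hK : Turan34.K43Free H) :
    (n : ℝ) ^ 3 * H.card ≤ 5 / 54 * (n : ℝ) ^ 6 +
      ∑ T ∈ (univ : Finset (Fin n)).powersetCard 3 \ H,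
        (ext H 1 T : ℝ) * ext H 2 T * (3 * (n : ℝ) - 10 * ext H 0 T - 30) := by
  have h := CB.key h3 hK
  have h0 : (0 : ℤ) ≤ (NT (tri H) : ℤ) := by positivity
  have h' : (0 : ℝ) ≤ 116 * (5 * (n : ℝ) ^ 6 - 54 * ((n : ℝ) ^ 3 * H.card) - 54 * (CB.sg H : ℝ)) := by
    exact_mod_cast h0.trans h
  have e1 : (CB.sg H : ℝ) = - ∑ T ∈ (univ : Finset (Fin n)).powersetCard 3 \ H,
        (ext H 1 T : ℝ) * ext H 2 T * (3 * (n : ℝ) - 10 * ext H 0 T - 30) := by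
    unfold CB.sg
    push_cast
    rw [← sum_neg_distrib]
    refine sum_congr rfl fun T _ => ?_
    ring
  rw [e1] at h'
  linarith

theorem stabilityB (H : Finset (Finset (Fin n))) (h3 : ∀ e ∈ H, e.card = 3)
    (hK : Turan34.K43Free H) :
    ∃ g : Fin n → Fin 3, (n : ℝ) ^ 3 * ((symmDiff H (Turan34.turan g)).card : ℝ) ≤
      673505280 * (5 / 54 * (n : ℝ) ^ 6 - (n : ℝ) ^ 3 * H.card +
        ((∑ T ∈ (univ : Finset (Fin n)).powersetCard 3 \ H,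
          ext H 1 T * ext H 2 T * (3 * n - (10 * ext H 0 T + 30)) : ℕ) : ℝ)) := by
  have h := CB.key h3 hK
  have h1 : - CB.sg H ≤ ((∑ T ∈ (univ : Finset (Fin n)).powersetCard 3 \ H,
      ext H 1 T * ext H 2 T * (3 * n - (10 * ext H 0 T + 30)) : ℕ) : ℤ) := by
    unfold CB.sg
    rw [← sum_neg_distrib, Nat.cast_sum]
    refine sum_le_sum fun T _ => ?_
    push_cast
    rw [← mul_neg]
    refine mul_le_mul_of_nonneg_left ?_ (by positivity)
    omega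
  set W : ℕ := ∑ T ∈ (univ : Finset (Fin n)).powersetCard 3 \ H,
      ext H 1 T * ext H 2 T * (3 * n - (10 * ext H 0 T + 30))
  have h2 : (NT (tri H) : ℤ) ≤ 116 * (5 * (n : ℤ) ^ 6 - 54 * ((n : ℤ) ^ 3 * H.card) + 54 * (W : ℤ)) :=
    h.trans (by linarith)
  obtain ⟨g, hg⟩ := stab_gen H h3 hK 116 (54 * (W : ℝ)) (by norm_num) (by positivity) (by
      exact_mod_cast h2)
  exact ⟨g, hg.trans (le_of_eq (by ring))⟩

variable {G : Finset (Finset (Fin n))}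

theorem covB (h3 : ∀ e ∈ G, e.card = 3) (hc : CoversQuadruples G) :
    (n : ℝ) ^ 3 * (2 / 27 * (n : ℝ) ^ 3 - (n : ℝ) ^ 2 / 2 + (n : ℝ) / 3) ≤ (n : ℝ) ^ 3 * G.card +
      ∑ T ∈ G, (ext G 3 T : ℝ) * ext G 2 T * (3 * (n : ℝ) - 10 * ext G 4 T - 30) := by
  have h := densityB (cpl G) (fun e he => cpl_card he) (compl_free h3 hc)
  have e1 : (univ : Finset (Fin n)).powersetCard 3 \ cpl G = G := cpl_cpl h3
  rw [e1, card_cpl h3] at h
  have e2 : ∑ T ∈ G, (ext (cpl G) 1 T : ℝ) * ext (cpl G) 2 T *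
      (3 * (n : ℝ) - 10 * ext (cpl G) 0 T - 30) =
      ∑ T ∈ G, (ext G 3 T : ℝ) * ext G 2 T * (3 * (n : ℝ) - 10 * ext G 4 T - 30) := by
    refine sum_congr rfl fun T hT => ?_
    rw [ext_cpl (i := 1) (j := 3) h3 (h3 T hT) rfl, ext_cpl (i := 2) (j := 2) h3 (h3 T hT) rfl,
      ext_cpl (i := 0) (j := 4) h3 (h3 T hT) rfl]
  rw [e2] at h
  nlinarith [h]

theorem covSB (h3 : ∀ e ∈ G, e.card = 3) (hc : CoversQuadruples G) :
    ∃ g : Fin n → Fin 3, (n : ℝ) ^ 3 * ((symmDiff G (turanC g)).card : ℝ) ≤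
      673505280 * ((n : ℝ) ^ 3 * G.card -
        (n : ℝ) ^ 3 * (2 / 27 * (n : ℝ) ^ 3 - (n : ℝ) ^ 2 / 2 + (n : ℝ) / 3) +
        ((∑ T ∈ G, ext G 3 T * ext G 2 T * (3 * n - (10 * ext G 4 T + 30)) : ℕ) : ℝ)) := by
  obtain ⟨g, hg⟩ := stabilityB (cpl G) (fun e he => cpl_card he) (compl_free h3 hc)
  have e1 : (univ : Finset (Fin n)).powersetCard 3 \ cpl G = G := cpl_cpl h3
  rw [e1, card_cpl h3, turan_cpl, symm_cpl h3 (fun e he => turanC_card he)] at hg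
  refine ⟨fun v => -g v, hg.trans (le_of_eq ?_)⟩
  have e2 : ∑ T ∈ G, ext (cpl G) 1 T * ext (cpl G) 2 T * (3 * n - (10 * ext (cpl G) 0 T + 30)) =
      ∑ T ∈ G, ext G 3 T * ext G 2 T * (3 * n - (10 * ext G 4 T + 30)) := by
    refine sum_congr rfl fun T hT => ?_
    rw [ext_cpl (i := 1) (j := 3) h3 (h3 T hT) rfl, ext_cpl (i := 2) (j := 2) h3 (h3 T hT) rfl,
      ext_cpl (i := 0) (j := 4) h3 (h3 T hT) rfl]
  rw [e2]
  ring

theorem covLB (h3 : ∀ e ∈ G, e.card = 3) (hc : CoversQuadruples G)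
    (hl : ∀ T ∈ G, ext G 3 T * ext G 2 T ≠ 0 → 3 * n ≤ 10 * ext G 4 T + 30) :
    2 / 27 * (n : ℝ) ^ 3 - (n : ℝ) ^ 2 / 2 + (n : ℝ) / 3 ≤ G.card ∧
    ∃ g : Fin n → Fin 3, ((symmDiff G (turanC g)).card : ℝ) ≤
      673505280 * (G.card - (2 / 27 * (n : ℝ) ^ 3 - (n : ℝ) ^ 2 / 2 + (n : ℝ) / 3)) := by
  have hv : ∑ T ∈ G, ext G 3 T * ext G 2 T * (3 * n - (10 * ext G 4 T + 30)) = 0 := by
    refine sum_eq_zero fun T hT => ?_
    by_cases h5 : ext G 3 T * ext G 2 T = 0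
    · rw [h5, Nat.zero_mul]
    · rw [Nat.sub_eq_zero_of_le (hl T hT h5), Nat.mul_zero]
  obtain ⟨g, hg⟩ := covSB h3 hc
  rw [hv] at hg
  have key : ((symmDiff G (turanC g)).card : ℝ) ≤
      673505280 * (G.card - (2 / 27 * (n : ℝ) ^ 3 - (n : ℝ) ^ 2 / 2 + (n : ℝ) / 3)) := by
    rcases Nat.eq_zero_or_pos n with hn | hn
    · subst hn
      have hz : ∀ A : Finset (Finset (Fin 0)), (∀ e ∈ A, e.card = 3) → A = ∅ := by
        intro A hA
        rw [eq_empty_iff_forall_notMem]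
        intro e he
        have h4 := hA e he
        have h5 : e = ∅ := by
          rw [eq_empty_iff_forall_notMem]
          intro v
          exact v.elim0
        rw [h5, card_empty] at h4
        exact absurd h4 (by decide)
      rw [hz G h3, hz (turanC g) (fun e he => turanC_card he)]
      simp
    · have hn' : (0 : ℝ) < (n : ℝ) ^ 3 := by positivity
      refine le_of_mul_le_mul_left (hg.trans (le_of_eq ?_)) hn'
      push_cast
      ring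
  refine ⟨?_, g, key⟩
  have h0 : (0 : ℝ) ≤ ((symmDiff G (turanC g)).card : ℝ) := by positivity
  linarith

end
end Pool.Agent.V1119.NE
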