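import Pool.Agent.V1119.NE.MainAC
import Pool.Agent.V1119.NE.MainBC

/-! The two inequalities for the extensions of the edges combined. -/

set_option autoImplicit false
set_option maxRecDepth 100000
set_option maxHeartbeats 4000000
open Finset
open scoped Classical

namespace Pool.Agent.V1119.NE
open Pool.Agent.H122R2.N6 Pool.Agent.TH773 Pool.Agent.TH773.ST Pool.Agent.TH773.Cov

section
variable {n : ℕ} {G : Finset (Finset (Fin n))}

/-- the sum over the edges of a covering -/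
noncomputable def sgl (G : Finset (Finset (Fin n))) (l : ℝ) (F : ℝ → ℝ) : ℝ :=
  ∑ T ∈ G, (ext G 3 T : ℝ) * ext G 2 T *
    F (l * ext G 2 T + (1 - l) * (3 / 10 * n) - ext G 4 T - 3)

theorem keyAB (h3 : ∀ e ∈ G, e.card = 3) (hc : CoversQuadruples G) (l : ℝ) (h0 : 0 ≤ l)
    (h1 : l ≤ 1) :
    (NT (tri (cpl G)) : ℝ) ≤ 364 * (5 * (n : ℝ) ^ 6 - 54 * ((n : ℝ) ^ 3 * (cpl G).card) +
      54 * (40 / (4 + l) * sgl G l id)) := by
  have hA := CA.key (H := cpl G) (fun e he => cpl_card he) (compl_free h3 hc)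
  have hB := CB.key (H := cpl G) (fun e he => cpl_card he) (compl_free h3 hc)
  have hA' : (NT (tri (cpl G)) : ℝ) ≤ 364 * (5 * (n : ℝ) ^ 6 - 54 * ((n : ℝ) ^ 3 * (cpl G).card) -
      432 * (CA.sg (cpl G) : ℝ)) := by exact_mod_cast hA
  have hB' : (NT (tri (cpl G)) : ℝ) ≤ 116 * (5 * (n : ℝ) ^ 6 - 54 * ((n : ℝ) ^ 3 * (cpl G).card) -
      54 * (CB.sg (cpl G) : ℝ)) := by exact_mod_cast hB
  have hN : (0 : ℝ) ≤ (NT (tri (cpl G)) : ℝ) := by positivity
  have hS : 80 * sgl G l id = -(80 * l * (CA.sg (cpl G) : ℝ) + (8 - 8 * l) * (CB.sg (cpl G) : ℝ)) := by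
    unfold sgl CA.sg CB.sg
    have e1 : (univ : Finset (Fin n)).powersetCard 3 \ cpl G = G := cpl_cpl h3
    rw [e1]
    push_cast
    rw [mul_sum, mul_sum, mul_sum, ← sum_add_distrib, ← sum_neg_distrib]
    refine sum_congr rfl fun T hT => ?_
    rw [ext_cpl (i := 1) (j := 3) h3 (h3 T hT) rfl, ext_cpl (i := 2) (j := 2) h3 (h3 T hT) rfl,
      ext_cpl (i := 0) (j := 4) h3 (h3 T hT) rfl, id]
    ring
  set N : ℝ := (NT (tri (cpl G)) : ℝ)
  set Y : ℝ := 5 * (n : ℝ) ^ 6 - 54 * ((n : ℝ) ^ 3 * (cpl G).card)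
  set A : ℝ := (CA.sg (cpl G) : ℝ)
  set B : ℝ := (CB.sg (cpl G) : ℝ)
  set S : ℝ := sgl G l id
  have hB2 : N ≤ 364 * (Y - 54 * B) := by linarith
  have m1 := mul_le_mul_of_nonneg_left hA' (by linarith : 0 ≤ 10 * l)
  have m2 := mul_le_mul_of_nonneg_left hB2 (by linarith : 0 ≤ 8 - 8 * l)
  have hp : 0 < 4 + l := by linarith
  refine le_of_mul_le_mul_left ?_ hp
  have e2 : (4 + l) * (364 * (Y + 54 * (40 / (4 + l) * S))) = 364 * ((4 + l) * Y + 54 * (40 * S)) := by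
    field_simp
  rw [e2]
  nlinarith [m1, m2, hS]

theorem covAB (h3 : ∀ e ∈ G, e.card = 3) (hc : CoversQuadruples G) (l : ℝ) (h0 : 0 ≤ l)
    (h1 : l ≤ 1) :
    (n : ℝ) ^ 3 * (2 / 27 * (n : ℝ) ^ 3 - (n : ℝ) ^ 2 / 2 + (n : ℝ) / 3) ≤ (n : ℝ) ^ 3 * G.card +
      40 / (4 + l) * sgl G l id := by
  have h := keyAB h3 hc l h0 h1
  have hN : (0 : ℝ) ≤ (NT (tri (cpl G)) : ℝ) := by positivity
  have h' := hN.trans h
  rw [card_cpl h3] at h'
  nlinarith [h']

theorem covSAB (h3 : ∀ e ∈ G, e.card = 3) (hc : CoversQuadruples G) (l : ℝ) (h0 : 0 ≤ l)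
    (h1 : l ≤ 1) :
    ∃ g : Fin n → Fin 3, (n : ℝ) ^ 3 * ((symmDiff G (turanC g)).card : ℝ) ≤
      2113413120 * ((n : ℝ) ^ 3 * G.card -
        (n : ℝ) ^ 3 * (2 / 27 * (n : ℝ) ^ 3 - (n : ℝ) ^ 2 / 2 + (n : ℝ) / 3) +
        40 / (4 + l) * sgl G l (fun x => max x 0)) := by
  have h := keyAB h3 hc l h0 h1
  have hp : 0 < 4 + l := by linarith
  have hq : 0 ≤ 40 / (4 + l) := by positivity
  have h2 : sgl G l id ≤ sgl G l (fun x => max x 0) :=
    sum_le_sum fun T _ => mul_le_mul_of_nonneg_left (le_max_left _ _) (by positivity)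
  have h4 : 0 ≤ sgl G l (fun x => max x 0) :=
    sum_nonneg fun T _ => mul_nonneg (by positivity) (le_max_right _ _)
  have h5 := mul_le_mul_of_nonneg_left h2 hq
  have h6 := mul_nonneg hq h4
  obtain ⟨g, hg⟩ := stab_gen (cpl G) (fun e he => cpl_card he) (compl_free h3 hc) 364
    (54 * (40 / (4 + l) * sgl G l (fun x => max x 0))) (by norm_num) (by linarith) (by linarith)
  rw [card_cpl h3, turan_cpl, symm_cpl h3 (fun e he => turanC_card he)] at hg
  exact ⟨fun v => -g v, hg.trans (le_of_eq (by ring))⟩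

theorem zero_caseB (G : Finset (Finset (Fin 0))) (h3 : ∀ e ∈ G, e.card = 3) : G = ∅ := by
  rw [eq_empty_iff_forall_notMem]
  intro e he
  have h4 := h3 e he
  have h5 : e = ∅ := by
    rw [eq_empty_iff_forall_notMem]
    intro v
    exact v.elim0
  rw [h5, card_empty] at h4
  exact absurd h4 (by decide)

theorem covLAB (h3 : ∀ e ∈ G, e.card = 3) (hc : CoversQuadruples G) (l : ℝ) (h0 : 0 ≤ l)
    (h1 : l ≤ 1)
    (hl : ∀ T ∈ G, ext G 3 T * ext G 2 T ≠ 0 →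
      l * ext G 2 T + (1 - l) * (3 / 10 * (n : ℝ)) ≤ ext G 4 T + 3) :
    2 / 27 * (n : ℝ) ^ 3 - (n : ℝ) ^ 2 / 2 + (n : ℝ) / 3 ≤ G.card ∧
    ∃ g : Fin n → Fin 3, ((symmDiff G (turanC g)).card : ℝ) ≤
      2113413120 * (G.card - (2 / 27 * (n : ℝ) ^ 3 - (n : ℝ) ^ 2 / 2 + (n : ℝ) / 3)) := by
  have hv : sgl G l (fun x => max x 0) = 0 := by
    refine sum_eq_zero fun T hT => ?_
    by_cases h5 : ext G 3 T * ext G 2 T = 0
    · have h5' : (ext G 3 T : ℝ) * ext G 2 T = 0 := by exact_mod_cast h5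
      rw [h5', zero_mul]
    · have h6 := hl T hT h5
      have h7 : max (l * (ext G 2 T : ℝ) + (1 - l) * (3 / 10 * (n : ℝ)) - ext G 4 T - 3) 0 = 0 :=
        max_eq_right (by linarith)
      show (ext G 3 T : ℝ) * ext G 2 T *
        max (l * (ext G 2 T : ℝ) + (1 - l) * (3 / 10 * (n : ℝ)) - ext G 4 T - 3) 0 = 0
      rw [h7, mul_zero]
  obtain ⟨g, hg⟩ := covSAB h3 hc l h0 h1
  rw [hv] at hg
  have key : ((symmDiff G (turanC g)).card : ℝ) ≤
      2113413120 * (G.card - (2 / 27 * (n : ℝ) ^ 3 - (n : ℝ) ^ 2 / 2 + (n : ℝ) / 3)) := by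
    rcases Nat.eq_zero_or_pos n with hn | hn
    · subst hn
      rw [zero_caseB G h3, zero_caseB (turanC g) (fun e he => turanC_card he)]
      simp
    · have hn' : (0 : ℝ) < (n : ℝ) ^ 3 := by positivity
      refine le_of_mul_le_mul_left (hg.trans (le_of_eq ?_)) hn'
      ring
  refine ⟨?_, g, key⟩
  have h0 : (0 : ℝ) ≤ ((symmDiff G (turanC g)).card : ℝ) := by positivity
  linarith

end
end Pool.Agent.V1119.NE
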