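import Pool.Agent.V1119.NE.MainA
import Pool.Agent.V1119.NE.Cov

/-! The inequality for coverings. -/

set_option autoImplicit false
set_option maxRecDepth 100000
set_option maxHeartbeats 4000000
open Finset
open scoped Classical

namespace Pool.Agent.V1119.NE
open Pool.Agent.TH773 Pool.Agent.TH773.ST Pool.Agent.TH773.Cov

section
variable {n : ℕ} {G : Finset (Finset (Fin n))}

theorem covA (h3 : ∀ e ∈ G, e.card = 3) (hc : CoversQuadruples G) :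
    (n : ℝ) ^ 3 * (2 / 27 * (n : ℝ) ^ 3 - (n : ℝ) ^ 2 / 2 + (n : ℝ) / 3) ≤ (n : ℝ) ^ 3 * G.card +
      8 * ∑ T ∈ G, (ext G 3 T : ℝ) * ext G 2 T * ((ext G 2 T : ℝ) - ext G 4 T - 3) := by
  have h := densityA (cpl G) (fun e he => cpl_card he) (compl_free h3 hc)
  have e1 : (univ : Finset (Fin n)).powersetCard 3 \ cpl G = G := cpl_cpl h3
  rw [e1, card_cpl h3] at h
  have e2 : ∑ T ∈ G, (ext (cpl G) 1 T : ℝ) * ext (cpl G) 2 T *
      ((ext (cpl G) 2 T : ℝ) - ext (cpl G) 0 T - 3) =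
      ∑ T ∈ G, (ext G 3 T : ℝ) * ext G 2 T * ((ext G 2 T : ℝ) - ext G 4 T - 3) := by
    refine sum_congr rfl fun T hT => ?_
    rw [ext_cpl (i := 1) (j := 3) h3 (h3 T hT) rfl, ext_cpl (i := 2) (j := 2) h3 (h3 T hT) rfl,
      ext_cpl (i := 0) (j := 4) h3 (h3 T hT) rfl]
  rw [e2] at h
  nlinarith [h]

theorem covSA (h3 : ∀ e ∈ G, e.card = 3) (hc : CoversQuadruples G) :
    ∃ g : Fin n → Fin 3, (n : ℝ) ^ 3 * ((symmDiff G (turanC g)).card : ℝ) ≤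
      2113413120 * ((n : ℝ) ^ 3 * G.card -
        (n : ℝ) ^ 3 * (2 / 27 * (n : ℝ) ^ 3 - (n : ℝ) ^ 2 / 2 + (n : ℝ) / 3) +
        8 * ((∑ T ∈ G, ext G 3 T * ext G 2 T * (ext G 2 T - (ext G 4 T + 3)) : ℕ) : ℝ)) := by
  obtain ⟨g, hg⟩ := stabilityA (cpl G) (fun e he => cpl_card he) (compl_free h3 hc)
  have e1 : (univ : Finset (Fin n)).powersetCard 3 \ cpl G = G := cpl_cpl h3
  rw [e1, card_cpl h3, turan_cpl, symm_cpl h3 (fun e he => turanC_card he)] at hg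
  refine ⟨fun v => -g v, hg.trans (le_of_eq ?_)⟩
  have e2 : ∑ T ∈ G, ext (cpl G) 1 T * ext (cpl G) 2 T * (ext (cpl G) 2 T - (ext (cpl G) 0 T + 3)) =
      ∑ T ∈ G, ext G 3 T * ext G 2 T * (ext G 2 T - (ext G 4 T + 3)) := by
    refine sum_congr rfl fun T hT => ?_
    rw [ext_cpl (i := 1) (j := 3) h3 (h3 T hT) rfl, ext_cpl (i := 2) (j := 2) h3 (h3 T hT) rfl,
      ext_cpl (i := 0) (j := 4) h3 (h3 T hT) rfl]
  rw [e2]
  ring

theorem covLA (h3 : ∀ e ∈ G, e.card = 3) (hc : CoversQuadruples G)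
    (hl : ∀ T ∈ G, ext G 3 T ≠ 0 → ext G 2 T ≤ ext G 4 T + 3) :
    2 / 27 * (n : ℝ) ^ 3 - (n : ℝ) ^ 2 / 2 + (n : ℝ) / 3 ≤ G.card ∧
    ∃ g : Fin n → Fin 3, ((symmDiff G (turanC g)).card : ℝ) ≤
      2113413120 * (G.card - (2 / 27 * (n : ℝ) ^ 3 - (n : ℝ) ^ 2 / 2 + (n : ℝ) / 3)) := by
  obtain ⟨h1, g, hg⟩ := localA (cpl G) (fun e he => cpl_card he) (compl_free h3 hc) (by
    intro T hT hTn
    have hTG : T ∈ G := by
      have e1 : T ∈ cpl (cpl G) := mem_sdiff.mpr ⟨mem_powersetCard.mpr ⟨subset_univ _, hT⟩, hTn⟩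
      rwa [cpl_cpl h3] at e1
    rw [ext_cpl (i := 1) (j := 3) h3 hT rfl, ext_cpl (i := 2) (j := 2) h3 hT rfl,
      ext_cpl (i := 0) (j := 4) h3 hT rfl]
    exact hl T hTG)
  rw [card_cpl h3] at h1 hg
  rw [turan_cpl, symm_cpl h3 (fun e he => turanC_card he)] at hg
  exact ⟨by linarith, fun v => -g v, hg.trans (le_of_eq (by ring))⟩

theorem ext_turanC (g : Fin n → Fin 3) (T : Finset (Fin n)) (hT : T ∈ turanC g) :
    ext (turanC g) 3 T = 0 := by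
  have h3 := turanC_card hT
  have h := ext_turan (fun v => -g v) T h3 (by
    rw [← compl_turanC]
    exact fun h => (mem_sdiff.mp h).2 hT)
  rw [← compl_turanC] at h
  rw [← ext_cpl (i := 1) (j := 3) (fun e he => turanC_card he) h3 rfl]
  exact h

end
end Pool.Agent.V1119.NE
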