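import Pool.Agent.V1119.NE.LocE
import Pool.Agent.V1119.CG.Slk
import Pool.Agent.V1119.NE.Cov

/-! The inequality for the codegree sums of the triples, for coverings. -/

set_option autoImplicit false
set_option maxRecDepth 100000
set_option maxHeartbeats 4000000
open Finset
open scoped Classical

namespace Pool.Agent.V1119.NE2
open Pool.Agent.V1119.NE
open Pool.Agent.H122R2.N6 Pool.Agent.TH773 Pool.Agent.TH773.ST Pool.Agent.TH773.Cov

section
variable {n : ℕ}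

/-- stability from an inequality with slack -/
theorem stab_gen (H : Finset (Finset (Fin n))) (h3 : ∀ e ∈ H, e.card = 3)
    (hK : Turan34.K43Free H) (K D : ℝ) (hK1 : 1 ≤ K) (hD : 0 ≤ D)
    (h : (NT (tri H) : ℝ) ≤ K * (5 * (n : ℝ) ^ 6 - 54 * ((n : ℝ) ^ 3 * H.card) + D)) :
    ∃ g : Fin n → Fin 3, (n : ℝ) ^ 3 * ((symmDiff H (Turan34.turan g)).card : ℝ) ≤
      107520 * K * (5 * (n : ℝ) ^ 6 - 54 * ((n : ℝ) ^ 3 * H.card) + D) := by
  have hE := tri_sy H
  have hN := tri_noK4 h3 hK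
  obtain ⟨g, hg⟩ := Pool.Agent.V1119.CG.stabG hE hN
  refine ⟨g, ?_⟩
  have h6 := six_card_le h3
  have hsd := six_symm_le h3 g
  rw [Fintype.card_fin] at hg
  have hb := bad_le (E := tri H) g
  rw [Fintype.card_fin] at hb
  have hsd' : (6 : ℝ) * ((symmDiff H (Turan34.turan g)).card : ℝ) ≤ (bad (tri H) g : ℝ) := by
    exact_mod_cast hsd
  have hbn : (bad (tri H) g : ℝ) ≤ (n : ℝ) ^ 3 := by exact_mod_cast hb
  have h7 : (6 : ℝ) * H.card ≤ ((∑ a, ∑ b, ∑ c, tri H a b c : ℕ) : ℝ) := by exact_mod_cast h6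
  have hn3 : (0 : ℝ) ≤ (n : ℝ) ^ 3 := by positivity
  have hn6 : (0 : ℝ) ≤ (n : ℝ) ^ 6 := by positivity
  have h15 := mul_le_mul_of_nonneg_left hsd' hn3
  have h16 := mul_le_mul_of_nonneg_left h7 hn3
  set S : ℝ := ((∑ a, ∑ b, ∑ c, tri H a b c : ℕ) : ℝ) with hSd
  have e1 : (n : ℝ) ^ 3 * (6 * ((symmDiff H (Turan34.turan g)).card : ℝ)) =
      6 * ((n : ℝ) ^ 3 * ((symmDiff H (Turan34.turan g)).card : ℝ)) := by ring
  have e2 : (n : ℝ) ^ 3 * (6 * (H.card : ℝ)) = 6 * ((n : ℝ) ^ 3 * H.card) := by ring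
  rw [e1] at h15
  rw [e2] at h16
  rcases hg with hg | hg
  · have hg' : 1000 * ((n : ℝ) ^ 3 * S) ≤ 550 * (n : ℝ) ^ 6 := by
      rw [hSd]
      exact_mod_cast hg
    have h12 : (n : ℝ) ^ 3 * (bad (tri H) g : ℝ) ≤ (n : ℝ) ^ 6 := by
      calc (n : ℝ) ^ 3 * (bad (tri H) g : ℝ) ≤ (n : ℝ) ^ 3 * (n : ℝ) ^ 3 :=
            mul_le_mul_of_nonneg_left hbn (by positivity)
        _ = _ := by ring
    have h17 : (n : ℝ) ^ 6 ≤ 20 * (5 * (n : ℝ) ^ 6 - 54 * ((n : ℝ) ^ 3 * H.card) + D) := by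
      linarith
    have h18 : 0 ≤ 5 * (n : ℝ) ^ 6 - 54 * ((n : ℝ) ^ 3 * H.card) + D := by linarith
    have h19 := mul_le_mul_of_nonneg_right hK1 h18
    linarith
  · have hg' : (n : ℝ) ^ 3 * (bad (tri H) g : ℝ) ≤ 645120 * (NT (tri H) : ℝ) := by exact_mod_cast hg
    linarith


variable {G : Finset (Finset (Fin n))}

theorem cod_cpl (h3 : ∀ e ∈ G, e.card = 3) {p : Finset (Fin n)} (hp : p.card = 2) :
    ((univ : Finset (Fin n)).filter fun z => insert z p ∈ cpl G).card +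
      ((univ : Finset (Fin n)).filter fun z => insert z p ∈ G).card + 2 = n := by
  have hd : Disjoint ((univ : Finset (Fin n)).filter fun z => insert z p ∈ cpl G)
      ((univ : Finset (Fin n)).filter fun z => insert z p ∈ G) := by
    rw [disjoint_left]
    intro z h1 h2
    exact (mem_sdiff.mp (mem_filter.mp h1).2).2 (mem_filter.mp h2).2
  rw [← card_union_of_disjoint hd]
  have e : ((univ : Finset (Fin n)).filter fun z => insert z p ∈ cpl G) ∪
      ((univ : Finset (Fin n)).filter fun z => insert z p ∈ G) = univ \ p := by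
    ext z
    simp only [mem_union, mem_filter, mem_univ, true_and, mem_sdiff]
    constructor
    · rintro (h | h) hz
      · have := cpl_card h
        rw [insert_eq_of_mem hz, hp] at this
        omega
      · have := h3 _ h
        rw [insert_eq_of_mem hz, hp] at this
        omega
    · intro hz
      by_cases h : insert z p ∈ G
      · exact Or.inr h
      · refine Or.inl (mem_sdiff.mpr ⟨mem_powersetCard.mpr ⟨subset_univ _, ?_⟩, h⟩)
        rw [card_insert_of_notMem hz, hp]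
  rw [e]
  have h1 := card_sdiff_add_card_eq_card (subset_univ p)
  rw [hp, card_univ, Fintype.card_fin] at h1
  exact h1

theorem codsum_cpl (h3 : ∀ e ∈ G, e.card = 3) {T : Finset (Fin n)} (hT : T.card = 3) :
    (codsum (cpl G) T : ℝ) = 3 * (n : ℝ) - 6 - codsum G T := by
  have h : codsum (cpl G) T + codsum G T + 6 = 3 * n := by
    unfold codsum
    have h1 : ∑ p ∈ T.powersetCard 2, (((univ : Finset (Fin n)).filter fun z => insert z p ∈ cpl G).card +
        ((univ : Finset (Fin n)).filter fun z => insert z p ∈ G).card + 2) =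
        ∑ p ∈ T.powersetCard 2, n := sum_congr rfl fun p hp =>
      cod_cpl h3 (mem_powersetCard.mp hp).2
    rw [sum_add_distrib, sum_add_distrib, sum_const, sum_const, card_powersetCard, hT] at h1
    have h2 : Nat.choose 3 2 = 3 := by decide
    rw [h2] at h1
    simpa using h1
  have h' : (codsum (cpl G) T : ℝ) + codsum G T + 6 = 3 * n := by exact_mod_cast h
  linarith

/-- the sum over the triples -/
noncomputable def sgR (G : Finset (Finset (Fin n))) (F : ℝ → ℝ) : ℝ :=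
  3 / 2 * ∑ T ∈ (univ : Finset (Fin n)).powersetCard 3 \ G,
    ((codsum G T : ℝ) - n + 6) ^ 2 * F (3 * (codsum G T : ℝ) + 18 - 4 * n) +
  3 / 20 * ∑ T ∈ G, (ext G 3 T : ℝ) * ext G 2 T * F (33 * (n : ℝ) - 150 - 25 * codsum G T)

theorem sg_cpl (h3 : ∀ e ∈ G, e.card = 3) : (CE.sg (cpl G) : ℝ) = - (20 / 3 * sgR G id) := by
  unfold CE.sg sgR
  have e1 : (univ : Finset (Fin n)).powersetCard 3 \ cpl G = G := cpl_cpl h3
  rw [e1]
  push_cast
  have e2 : ∑ T ∈ G, (ext (cpl G) 1 T : ℝ) * ext (cpl G) 2 T * (42 * (n : ℝ) - 25 * codsum (cpl G) T) =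
      - ∑ T ∈ G, (ext G 3 T : ℝ) * ext G 2 T * id (33 * (n : ℝ) - 150 - 25 * codsum G T) := by
    rw [← sum_neg_distrib]
    refine sum_congr rfl fun T hT => ?_
    rw [ext_cpl (i := 1) (j := 3) h3 (h3 T hT) rfl, ext_cpl (i := 2) (j := 2) h3 (h3 T hT) rfl,
      codsum_cpl h3 (h3 T hT), id]
    ring
  have e3 : ∑ T ∈ cpl G, 10 * ((2 * (n : ℝ) - codsum (cpl G) T) ^ 2 * (3 * (codsum (cpl G) T : ℝ) - 5 * (n : ℝ))) =
      - (10 * ∑ T ∈ (univ : Finset (Fin n)).powersetCard 3 \ G,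
    ((codsum G T : ℝ) - n + 6) ^ 2 * id (3 * (codsum G T : ℝ) + 18 - 4 * n)) := by
    rw [mul_sum, ← sum_neg_distrib]
    refine sum_congr rfl fun T hT => ?_
    rw [codsum_cpl h3 (cpl_card hT), id]
    ring
  rw [e2, e3]
  ring

theorem sgR_le (F F' : ℝ → ℝ) (h : ∀ x, F x ≤ F' x) : sgR G F ≤ sgR G F' := by
  unfold sgR
  refine add_le_add (mul_le_mul_of_nonneg_left (sum_le_sum fun T _ => ?_) (by norm_num))
    (mul_le_mul_of_nonneg_left (sum_le_sum fun T _ => ?_) (by norm_num))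
  · exact mul_le_mul_of_nonneg_left (h _) (sq_nonneg _)
  · exact mul_le_mul_of_nonneg_left (h _) (by positivity)

theorem covD (h3 : ∀ e ∈ G, e.card = 3) (hc : CoversQuadruples G) :
    (n : ℝ) ^ 3 * (2 / 27 * (n : ℝ) ^ 3 - (n : ℝ) ^ 2 / 2 + (n : ℝ) / 3) ≤ (n : ℝ) ^ 3 * G.card +
      sgR G id := by
  have h := CE.key (H := cpl G) (fun e he => cpl_card he) (compl_free h3 hc)
  have h0 : (0 : ℤ) ≤ (NT (tri (cpl G)) : ℤ) := by positivity
  have h' : (0 : ℝ) ≤ 49 * (50 * (n : ℝ) ^ 6 - 540 * ((n : ℝ) ^ 3 * (cpl G).card) -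
      81 * (CE.sg (cpl G) : ℝ)) := by
    exact_mod_cast h0.trans h
  rw [sg_cpl h3, card_cpl h3] at h'
  nlinarith [h']

theorem covSD (h3 : ∀ e ∈ G, e.card = 3) (hc : CoversQuadruples G) :
    ∃ g : Fin n → Fin 3, (n : ℝ) ^ 3 * ((symmDiff G (turanC g)).card : ℝ) ≤
      2844979200 * ((n : ℝ) ^ 3 * G.card -
        (n : ℝ) ^ 3 * (2 / 27 * (n : ℝ) ^ 3 - (n : ℝ) ^ 2 / 2 + (n : ℝ) / 3) +
        sgR G (fun x => max x 0)) := by
  have h := CE.key (H := cpl G) (fun e he => cpl_card he) (compl_free h3 hc)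
  have h' : (NT (tri (cpl G)) : ℝ) ≤ 49 * (50 * (n : ℝ) ^ 6 - 540 * ((n : ℝ) ^ 3 * (cpl G).card) -
      81 * (CE.sg (cpl G) : ℝ)) := by
    exact_mod_cast h
  rw [sg_cpl h3] at h'
  have h1 : sgR G id ≤ sgR G (fun x => max x 0) := sgR_le _ _ fun x => le_max_left _ _
  have h2 : 0 ≤ sgR G (fun x => max x 0) := by
    unfold sgR
    exact add_nonneg (mul_nonneg (by norm_num) (sum_nonneg fun T _ => mul_nonneg (sq_nonneg _) (le_max_right _ _)))
      (mul_nonneg (by norm_num) (sum_nonneg fun T _ => mul_nonneg (by positivity) (le_max_right _ _)))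
  obtain ⟨g, hg⟩ := stab_gen (cpl G) (fun e he => cpl_card he) (compl_free h3 hc) 490
    (54 * sgR G (fun x => max x 0)) (by norm_num) (by positivity) (by linarith)
  rw [card_cpl h3, turan_cpl, symm_cpl h3 (fun e he => turanC_card he)] at hg
  exact ⟨fun v => -g v, hg.trans (le_of_eq (by ring))⟩

theorem codsum_le (G : Finset (Finset (Fin n))) {T : Finset (Fin n)} (hT : T.card = 3) :
    codsum G T ≤ 3 * n := by
  unfold codsum
  calc ∑ p ∈ T.powersetCard 2, ((univ : Finset (Fin n)).filter fun z => insert z p ∈ G).card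
      ≤ ∑ _p ∈ T.powersetCard 2, n := sum_le_sum fun p _ => by
        refine (card_le_univ _).trans ?_
        rw [Fintype.card_fin]
    _ = 3 * n := by
        rw [sum_const, card_powersetCard, hT]
        rfl

theorem ext_le (G : Finset (Finset (Fin n))) (T : Finset (Fin n)) :
    ext G 3 T + ext G 2 T ≤ n := by
  unfold Pool.Agent.V1119.NE.ext
  rw [← card_union_of_disjoint]
  · refine (card_le_univ _).trans ?_
    rw [Fintype.card_fin]
  · rw [disjoint_left]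
    intro v h1 h2
    have h3 := (mem_filter.mp h1).2.2
    have h4 := (mem_filter.mp h2).2.2
    omega

theorem sgR_bound (h3 : ∀ e ∈ G, e.card = 3) (δ : ℝ) (hδ : 0 ≤ δ)
    (h1 : ∀ T ∈ G, ext G 3 T * ext G 2 T ≠ 0 → (33 / 25 - δ) * (n : ℝ) ≤ codsum G T + 6)
    (h2 : ∀ T : Finset (Fin n), T.card = 3 → T ∉ G → (codsum G T : ℝ) + 6 ≤ (4 / 3 + δ) * (n : ℝ)) :
    sgR G (fun x => max x 0) ≤ 3 * δ * (n : ℝ) ^ 6 := by
  have hn0 : (0 : ℝ) ≤ (n : ℝ) := by positivity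
  have a1 : ∑ T ∈ (univ : Finset (Fin n)).powersetCard 3 \ G,
      ((codsum G T : ℝ) - n + 6) ^ 2 * max (3 * (codsum G T : ℝ) + 18 - 4 * n) 0 ≤
      ∑ T ∈ (univ : Finset (Fin n)).powersetCard 3 \ G, 12 * δ * (n : ℝ) ^ 3 := by
    refine sum_le_sum fun T hT => ?_
    obtain ⟨hT1, hT2⟩ := mem_sdiff.mp hT
    have hT3 := (mem_powersetCard.mp hT1).2
    have b1 := h2 T hT3 hT2
    have hn3 : 3 ≤ n := by
      have := card_le_univ T
      rw [hT3, Fintype.card_fin] at this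
      exact this
    have hn3' : (3 : ℝ) ≤ (n : ℝ) := by exact_mod_cast hn3
    have b2 : (codsum G T : ℝ) = 3 * (n : ℝ) - 6 - codsum (cpl G) T := by
      have := codsum_cpl h3 hT3
      linarith
    have b3 : (0 : ℝ) ≤ (codsum (cpl G) T : ℝ) := by positivity
    have b4 : (0 : ℝ) ≤ (codsum G T : ℝ) := by positivity
    have b5 : ((codsum G T : ℝ) - n + 6) ^ 2 ≤ (2 * (n : ℝ)) ^ 2 := by
      apply sq_le_sq'
      · linarith
      · linarith
    have b6 : max (3 * (codsum G T : ℝ) + 18 - 4 * n) 0 ≤ 3 * (δ * n) := by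
      apply max_le
      · linarith
      · positivity
    calc _ ≤ (2 * (n : ℝ)) ^ 2 * (3 * (δ * n)) :=
          mul_le_mul b5 b6 (le_max_right _ _) (by positivity)
      _ = 12 * δ * (n : ℝ) ^ 3 := by ring
  have a2 : ∑ T ∈ G, (ext G 3 T : ℝ) * ext G 2 T * max (33 * (n : ℝ) - 150 - 25 * codsum G T) 0 ≤
      ∑ T ∈ G, 120 * δ * (n : ℝ) ^ 3 := by
    refine sum_le_sum fun T hT => ?_
    have hD : 0 ≤ δ * (n : ℝ) ^ 3 := by positivity
    by_cases h0 : ext G 3 T * ext G 2 T = 0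
    · have h0' : (ext G 3 T : ℝ) * ext G 2 T = 0 := by exact_mod_cast h0
      rw [h0', zero_mul]
      linarith
    · have b1 := h1 T hT h0
      have b2 : (ext G 3 T : ℝ) + ext G 2 T ≤ n := by exact_mod_cast ext_le G T
      have b3 : (0 : ℝ) ≤ (ext G 3 T : ℝ) := by positivity
      have b4 : (0 : ℝ) ≤ (ext G 2 T : ℝ) := by positivity
      have b5 : (ext G 3 T : ℝ) * ext G 2 T ≤ (n : ℝ) ^ 2 := by nlinarith
      have b6 : max (33 * (n : ℝ) - 150 - 25 * codsum G T) 0 ≤ 25 * (δ * n) := by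
        apply max_le
        · linarith
        · positivity
      calc _ ≤ (n : ℝ) ^ 2 * (25 * (δ * n)) :=
            mul_le_mul b5 b6 (le_max_right _ _) (by positivity)
        _ ≤ 120 * δ * (n : ℝ) ^ 3 := by nlinarith
  have a3 : sgR G (fun x => max x 0) ≤ (n.choose 3 : ℝ) * (18 * δ * (n : ℝ) ^ 3) := by
    have e1 := card_compl h3
    have e2 : (((univ : Finset (Fin n)).powersetCard 3 \ G).card : ℝ) + G.card = (n.choose 3 : ℝ) := by
      exact_mod_cast e1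
    unfold sgR
    rw [sum_const, nsmul_eq_mul] at a1 a2
    rw [← e2, add_mul]
    refine add_le_add ?_ ?_
    · linarith
    · linarith
  have a4 : 6 * (n.choose 3 : ℝ) ≤ (n : ℝ) ^ 3 := by
    have e1 := choose_three n
    have e2 : 6 * n.choose 3 ≤ n ^ 3 := by
      rcases Nat.eq_zero_or_pos n with h | h
      · subst h; decide
      · have : 2 * n ≤ 3 * n ^ 2 := by nlinarith
        omega
    exact_mod_cast e2
  have hD : 0 ≤ δ * (n : ℝ) ^ 3 := by positivity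
  calc sgR G (fun x => max x 0) ≤ (n.choose 3 : ℝ) * (18 * δ * (n : ℝ) ^ 3) := a3
    _ = 3 * (6 * (n.choose 3 : ℝ)) * (δ * (n : ℝ) ^ 3) := by ring
    _ ≤ 3 * (n : ℝ) ^ 3 * (δ * (n : ℝ) ^ 3) :=
        mul_le_mul_of_nonneg_right (by linarith) hD
    _ = 3 * δ * (n : ℝ) ^ 6 := by ring

theorem zero_case (G : Finset (Finset (Fin 0))) (h3 : ∀ e ∈ G, e.card = 3) : G = ∅ := by
  rw [eq_empty_iff_forall_notMem]
  intro e he
  have h4 := h3 e he
  have h5 : e = ∅ := by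
    rw [eq_empty_iff_forall_notMem]
    intro v
    exact v.elim0
  rw [h5, card_empty] at h4
  exact absurd h4 (by decide)

theorem covLD (h3 : ∀ e ∈ G, e.card = 3) (hc : CoversQuadruples G) :
    ∃ g : Fin n → Fin 3, ∀ δ : ℝ, 0 ≤ δ →
    (∀ T ∈ G, ext G 3 T * ext G 2 T ≠ 0 → (33 / 25 - δ) * (n : ℝ) ≤ codsum G T + 6) →
    (∀ T : Finset (Fin n), T.card = 3 → T ∉ G → (codsum G T : ℝ) + 6 ≤ (4 / 3 + δ) * (n : ℝ)) →
    2 / 27 * (n : ℝ) ^ 3 - (n : ℝ) ^ 2 / 2 + (n : ℝ) / 3 ≤ G.card + 3 * δ * (n : ℝ) ^ 3 ∧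
    ((symmDiff G (turanC g)).card : ℝ) ≤
      2844979200 * (G.card + 3 * δ * (n : ℝ) ^ 3 -
        (2 / 27 * (n : ℝ) ^ 3 - (n : ℝ) ^ 2 / 2 + (n : ℝ) / 3)) := by
  obtain ⟨g, hg⟩ := covSD h3 hc
  refine ⟨g, fun δ hδ h1 h2 => ?_⟩
  have hb := sgR_bound h3 δ hδ h1 h2
  have key : ((symmDiff G (turanC g)).card : ℝ) ≤
      2844979200 * (G.card + 3 * δ * (n : ℝ) ^ 3 -
        (2 / 27 * (n : ℝ) ^ 3 - (n : ℝ) ^ 2 / 2 + (n : ℝ) / 3)) := by
    rcases Nat.eq_zero_or_pos n with hn | hn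
    · subst hn
      rw [zero_case G h3, zero_case (turanC g) (fun e he => turanC_card he)]
      simp
    · have hn' : (0 : ℝ) < (n : ℝ) ^ 3 := by positivity
      refine le_of_mul_le_mul_left (hg.trans ?_) hn'
      have e : (n : ℝ) ^ 3 * (2844979200 * (G.card + 3 * δ * (n : ℝ) ^ 3 -
        (2 / 27 * (n : ℝ) ^ 3 - (n : ℝ) ^ 2 / 2 + (n : ℝ) / 3))) =
        2844979200 * ((n : ℝ) ^ 3 * G.card -
        (n : ℝ) ^ 3 * (2 / 27 * (n : ℝ) ^ 3 - (n : ℝ) ^ 2 / 2 + (n : ℝ) / 3) +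
        3 * δ * (n : ℝ) ^ 6) := by ring
      rw [e]
      linarith
  refine ⟨?_, key⟩
  have h0 : (0 : ℝ) ≤ ((symmDiff G (turanC g)).card : ℝ) := by positivity
  linarith

end
end Pool.Agent.V1119.NE2
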