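import Pool.Agent.V1119.CG.Slk

/-! The sum inequality with slack and with a functional of the extensions of triples. -/

set_option autoImplicit false
set_option maxRecDepth 100000
set_option maxHeartbeats 4000000
open Finset
open scoped Classical

namespace Pool.Agent.V1119.NE
open Pool.Agent.H122R2.N6 Pool.Agent.H37R3.Pen Pool.Agent.H37R3.Cop Pool.Agent.H37R3.CopL
open Pool.Agent.TH773.ST

/-- a bit -/
def bi (c k : ℕ) : ℕ := Nat.mod (Nat.shiftRight c k) 2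

def mq (G : ℕ → ℕ → ℕ → ℕ → ℕ) (e p x y : ℕ) : ℕ := Nat.add (G e p x y) (G e p y x)

/-- the functional `G` on the four triples of the roots -/
def mu8 (G : ℕ → ℕ → ℕ → ℕ → ℕ) (c i j : ℕ) : ℕ :=
  Nat.add (mq G (bi c 0) (Nat.add (bi c 1) (Nat.add (bi c 2) (bi c 3)))
      (Nat.add (bi i 0) (Nat.add (bi i 1) (bi i 2))) (Nat.add (bi j 0) (Nat.add (bi j 1) (bi j 2))))
  (Nat.add (mq G (bi c 1) (Nat.add (bi c 0) (Nat.add (bi c 2) (bi c 3)))
      (Nat.add (bi i 0) (Nat.add (bi i 3) (bi i 4))) (Nat.add (bi j 0) (Nat.add (bi j 3) (bi j 4))))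
  (Nat.add (mq G (bi c 2) (Nat.add (bi c 0) (Nat.add (bi c 1) (bi c 3)))
      (Nat.add (bi i 1) (Nat.add (bi i 3) (bi i 5))) (Nat.add (bi j 1) (Nat.add (bi j 3) (bi j 5))))
    (mq G (bi c 3) (Nat.add (bi c 0) (Nat.add (bi c 1) (bi c 2)))
      (Nat.add (bi i 2) (Nat.add (bi i 4) (bi i 5)))
      (Nat.add (bi j 2) (Nat.add (bi j 4) (bi j 5))))))

theorem bi_cd4 {x y z w : ℕ} (hx : Bt x) (hy : Bt y) (hz : Bt z) (hw : Bt w) :
    bi (cd4 x y z w) 0 = x ∧ bi (cd4 x y z w) 1 = y ∧ bi (cd4 x y z w) 2 = z ∧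
      bi (cd4 x y z w) 3 = w := by
  rcases hx with rfl | rfl <;> rcases hy with rfl | rfl <;> rcases hz with rfl | rfl <;>
    rcases hw with rfl | rfl <;> exact ⟨rfl, rfl, rfl, rfl⟩

theorem bi_cd6 {x y z u v w : ℕ} (hx : Bt x) (hy : Bt y) (hz : Bt z) (hu : Bt u) (hv : Bt v)
    (hw : Bt w) : bi (cd6 x y z u v w) 0 = x ∧ bi (cd6 x y z u v w) 1 = y ∧
      bi (cd6 x y z u v w) 2 = z ∧ bi (cd6 x y z u v w) 3 = u ∧ bi (cd6 x y z u v w) 4 = v ∧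
      bi (cd6 x y z u v w) 5 = w := by
  rcases hx with rfl | rfl <;> rcases hy with rfl | rfl <;> rcases hz with rfl | rfl <;>
    rcases hu with rfl | rfl <;> rcases hv with rfl | rfl <;> rcases hw with rfl | rfl <;>
    exact ⟨rfl, rfl, rfl, rfl, rfl, rfl⟩

section
variable {V : Type} (E : V → V → V → ℕ)

/-- the number of edges on `a b c v` besides `a b c` -/
def pf (a b c v : V) : ℕ := E a b v + (E a c v + E b c v)

def trm (G : ℕ → ℕ → ℕ → ℕ → ℕ) (a b c d e f : V) : ℕ :=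
  G (E a b c) (pf E a b c d) (pf E a b c e) (pf E a b c f)

/-- the functional in terms of the vertices -/
def M8 (G : ℕ → ℕ → ℕ → ℕ → ℕ) (a b c d e f : V) : ℕ :=
  mu8 G (cd4 (E a b c) (E a b d) (E a c d) (E b c d))
    (cd6 (E a b e) (E a c e) (E b c e) (E a d e) (E b d e) (E c d e))
    (cd6 (E a b f) (E a c f) (E b c f) (E a d f) (E b d f) (E c d f))

variable {E}

theorem M8_eq (hE : Sy E) (G : ℕ → ℕ → ℕ → ℕ → ℕ) (a b c d e f : V) : M8 E G a b c d e f =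
    trm E G a b c d e f + trm E G a b c d f e + (trm E G a b d c e f + trm E G a b d c f e +
      (trm E G a c d b e f + trm E G a c d b f e +
        (trm E G b c d a e f + trm E G b c d a f e))) := by
  obtain ⟨c0, c1, c2, c3⟩ := bi_cd4 (hE.b a b c) (hE.b a b d) (hE.b a c d) (hE.b b c d)
  obtain ⟨i0, i1, i2, i3, i4, i5⟩ := bi_cd6 (hE.b a b e) (hE.b a c e) (hE.b b c e) (hE.b a d e)
    (hE.b b d e) (hE.b c d e)
  obtain ⟨j0, j1, j2, j3, j4, j5⟩ := bi_cd6 (hE.b a b f) (hE.b a c f) (hE.b b c f) (hE.b a d f)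
    (hE.b b d f) (hE.b c d f)
  unfold M8 mu8 mq trm pf
  rw [c0, c1, c2, c3, i0, i1, i2, i3, i4, i5, j0, j1, j2, j3, j4, j5]
  rw [hE.h132 a c d, hE.h132 b c d, hE.h132 a b c, hE.h132 a b d, hE.h231 b c d, hE.h231 a b c,
    hE.h231 a b d, hE.h231 a c d]
  rfl

variable [Fintype V]

theorem sum_M8 (hE : Sy E) (G : ℕ → ℕ → ℕ → ℕ → ℕ) :
    ∑ x : Fin 6 → V, (M8 E G (x 0) (x 1) (x 2) (x 3) (x 4) (x 5) : ℤ) =
      8 * ∑ a, ∑ b, ∑ c, ∑ d, ∑ e, ∑ f, (trm E G a b c d e f : ℤ) := by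
  have f4 : ∀ i0 i1 i2 i3 i4 i5 : Fin 6, Function.Injective ![i0, i1, i2, i3, i4, i5] →
      ∑ x : Fin 6 → V, (trm E G (x i0) (x i1) (x i2) (x i3) (x i4) (x i5) : ℤ)
      = ∑ x : Fin 6 → V, (trm E G (x 0) (x 1) (x 2) (x 3) (x 4) (x 5) : ℤ) :=
    fun i0 i1 i2 i3 i4 i5 hg =>
      psum (fun a b c d e f => (trm E G a b c d e f : ℤ)) ![i0, i1, i2, i3, i4, i5]
        (Finite.injective_iff_bijective.mp hg)
  rw [← conv6 (fun a b c d e f => (trm E G a b c d e f : ℤ))]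
  simp only [M8_eq hE G, Nat.cast_add, sum_add_distrib]
  rw [f4 0 1 2 3 5 4 (by decide), f4 0 1 3 2 4 5 (by decide), f4 0 1 3 2 5 4 (by decide),
    f4 0 2 3 1 4 5 (by decide), f4 0 2 3 1 5 4 (by decide), f4 1 2 3 0 4 5 (by decide),
    f4 1 2 3 0 5 4 (by decide)]
  ring

theorem lower4ob (hE : Sy E) (K : ℕ) (q4 : ℕ → ℕ → ℕ → ℕ) (W : ℕ → ℕ → ℕ)
    (l : ℕ → ℕ → ℕ → ℕ) (B O4 M : ℤ) (G : ℕ → ℕ → ℕ → ℕ → ℕ)
    (hq4 : ∀ c i j, c < 16 → i < 64 → j < 64 → (q4 c i j : ℤ) =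
      ∑ k ∈ range K, (W c k : ℤ) * ((l c i k : ℤ) - B) * ((l c j k : ℤ) - B)
        + (O4 + M * (mu8 G c i j : ℤ))) :
    O4 * (Fintype.card V : ℤ) ^ 6 +
        M * ∑ x : Fin 6 → V, (M8 E G (x 0) (x 1) (x 2) (x 3) (x 4) (x 5) : ℤ)
      ≤ ∑ x : Fin 6 → V, (F4 E q4 (x 0) (x 1) (x 2) (x 3) (x 4) (x 5) : ℤ) := by
  rw [conv6 (fun a b c d e f => (F4 E q4 a b c d e f : ℤ)),
    conv6 (fun a b c d e f => (M8 E G a b c d e f : ℤ))]
  have e1 : O4 * (Fintype.card V : ℤ) ^ 6 +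
      M * ∑ a, ∑ b, ∑ c, ∑ d, ∑ e, ∑ f, (M8 E G a b c d e f : ℤ)
      = ∑ a : V, ∑ b : V, ∑ c : V, ∑ d : V, ∑ e : V, ∑ f : V,
          (O4 + M * (M8 E G a b c d e f : ℤ)) := by
    simp only [sum_const, card_univ, nsmul_eq_mul, sum_add_distrib, mul_sum]
    ring
  rw [e1]
  refine sum_le_sum fun a _ => sum_le_sum fun b _ => sum_le_sum fun c _ => sum_le_sum fun d _ => ?_
  have e2 : ∀ e f : V, (F4 E q4 a b c d e f : ℤ) = _ := fun e f =>
    hq4 _ _ _ (cd4_lt (hE.b a b c) (hE.b a b d) (hE.b a c d) (hE.b b c d))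
      (cd6_lt (hE.b a b e) (hE.b a c e) (hE.b b c e) (hE.b a d e) (hE.b b d e) (hE.b c d e))
      (cd6_lt (hE.b a b f) (hE.b a c f) (hE.b b c f) (hE.b a d f) (hE.b b d f) (hE.b c d f))
  simp only [e2, sum_add_distrib]
  have p := psd K (fun k => W (cd4 (E a b c) (E a b d) (E a c d) (E b c d)) k)
    (fun k e => (l (cd4 (E a b c) (E a b d) (E a c d) (E b c d))
      (cd6 (E a b e) (E a c e) (E b c e) (E a d e) (E b d e) (E c d e)) k : ℤ) - B)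
  have e3 : ∀ e f : V, (mu8 G (cd4 (E a b c) (E a b d) (E a c d) (E b c d))
      (cd6 (E a b e) (E a c e) (E b c e) (E a d e) (E b d e) (E c d e))
      (cd6 (E a b f) (E a c f) (E b c f) (E a d f) (E b d f) (E c d f)) : ℤ) =
      (M8 E G a b c d e f : ℤ) := fun e f => rfl
  simp only [e3]
  linarith

/-- the sum inequality with slack, with the functional `G` -/
theorem slack_ob (hE : Sy E) (hK : NoK4 E) {K K2 C s : ℕ} {B O4 O2 M : ℤ} {t : ℕ → ℤ}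
    {q4 : ℕ → ℕ → ℕ → ℕ} {q2 : ℕ → ℕ → ℕ}
    {W : ℕ → ℕ → ℕ} {l : ℕ → ℕ → ℕ → ℕ} {W2 : ℕ → ℕ} {l2 : ℕ → ℕ → ℕ}
    {G : ℕ → ℕ → ℕ → ℕ → ℕ}
    {LT : List ℕ} {TbT : List (ℕ × ℕ × ℕ)} (hs : s ≤ C)
    (hq4 : ∀ c i j, c < 16 → i < 64 → j < 64 → (q4 c i j : ℤ) =
      ∑ k ∈ range K, (W c k : ℤ) * ((l c i k : ℤ) - B) * ((l c j k : ℤ) - B)
        + (O4 + M * (mu8 G c i j : ℤ)))
    (hq2 : ∀ i j, i < 16 → j < 16 → (q2 i j : ℤ) =
      ∑ k ∈ range K2, (W2 k : ℤ) * ((l2 i k : ℤ) - B) * ((l2 j k : ℤ) - B)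
        + (O2 + t (kk i j)))
    (cs4 : sym4 q4 = true) (cs2 : sym2 q2 = true)
    (hc : ∀ b012 b013 b023 b123 b014 b024 b124 b034 b134 b234 : ℕ, Bt b012 → Bt b013 → Bt b023 →
      Bt b123 → Bt b014 → Bt b024 → Bt b124 → Bt b034 → Bt b134 → Bt b234 →
      tg b012 b013 b023 b123 b014 b024 b124 b034 b134 b234 = 4 →
      chkS q4 q2 C 0 s LT [] b012 b013 b023 b123 b014 b024 b124 b034 b134 b234 = true)
    (iT : isoM LT TbT MT = true) :
    45 * T2 E t + 120 * M * (∑ a, ∑ b, ∑ c, ∑ d, ∑ e, ∑ f, (trm E G a b c d e f : ℤ)) +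
      (15 * O4 + 45 * O2) * (Fintype.card V : ℤ) ^ 6 + s * NT E ≤
      C * (Fintype.card V : ℤ) ^ 6 := by
  have iN : isoM [] [] [] = true := by decide +kernel
  have hleaf := leafS_all hE hK hs iT iN cs4 cs2 hc
  have A4 := lower4ob hE K q4 W l B O4 M G hq4
  rw [sum_M8 hE G] at A4
  have A2 := lower2t E hE K2 q2 W2 l2 B O2 t hq2
  have key : ∑ x : Fin 6 → V, ((L4 E q4 (x 0) (x 1) (x 2) (x 3) (x 4) (x 5) : ℤ)
      + (L2 E q2 (x 0) (x 1) (x 2) (x 3) (x 4) (x 5) : ℤ)) ≤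
      ∑ x : Fin 6 → V, ((C + 0 * XL E [] x + s * XL E MT x - s : ℕ) : ℤ) := by
    refine sum_le_sum fun x _ => ?_
    have h := hleaf (x 0) (x 1) (x 2) (x 3) (x 4) (x 5)
    simp only [XL_eq] at h
    rw [Nat.zero_add, Nat.one_mul] at h
    exact_mod_cast h
  rw [sum_add_distrib, sumL4 E q4, sumL2 E q2] at key
  have h1 : ∀ x : Fin 6 → V, ((C + 0 * XL E [] x + s * XL E MT x - s : ℕ) : ℤ) =
      ((C : ℤ) - s) + (s : ℤ) * (XL E MT x : ℤ) := by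
    intro x
    have h2 : s ≤ C + 0 * XL E [] x + s * XL E MT x := by
      rw [Nat.add_assoc]; exact hs.trans (Nat.le_add_right _ _)
    rw [Nat.cast_sub h2]
    push_cast
    ring
  simp only [h1] at key
  rw [sum_add_distrib, ← mul_sum, sum_const, card_univ,
    Fintype.card_fun, Fintype.card_fin, nsmul_eq_mul] at key
  have h3 : (∑ x : Fin 6 → V, (XL E MT x : ℤ)) + (NT E : ℤ) ≤ (Fintype.card V : ℤ) ^ 6 := by
    have h4 : ∑ x : Fin 6 → V, XL E MT x =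
        ((univ : Finset (Fin 6 → V)).filter fun x => RelL E MT x).card := by
      rw [card_filter]; rfl
    have h5 : ((univ : Finset (Fin 6 → V)).filter fun x => RelL E MT x).card + NT E ≤
        Fintype.card V ^ 6 := by
      unfold NT
      have h6 := Finset.card_filter_add_card_filter_not (s := (univ : Finset (Fin 6 → V)))
        (fun x => RelL E MT x)
      rw [card_univ, Fintype.card_fun, Fintype.card_fin] at h6
      rw [← h6]
      refine Nat.add_le_add_left (card_le_card ?_) _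
      intro x hx
      rw [mem_filter] at hx ⊢
      exact ⟨mem_univ _, fun h => hx.2 (TT_of_rel hE h)⟩
    rw [← h4] at h5
    exact_mod_cast h5
  have h6 : (0 : ℤ) ≤ (s : ℤ) := by positivity
  have h7 := mul_le_mul_of_nonneg_left h3 h6
  push_cast at key
  linarith

end
end Pool.Agent.V1119.NE
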