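import Pool.Agent.V1119.NE.MainEC

/-! The codegree sums in Turán's construction. -/

set_option autoImplicit false
set_option maxRecDepth 100000
set_option maxHeartbeats 4000000
open Finset
open scoped Classical

namespace Pool.Agent.V1119.NE2
open Pool.Agent.V1119.NE
open Pool.Agent.H122R2.N6 Pool.Agent.TH773 Pool.Agent.TH773.ST Pool.Agent.TH773.Cov

section
variable {n : ℕ}

theorem cod_turan (g : Fin n → Fin 3) (m : ℕ)
    (hg : ∀ k, ((univ : Finset (Fin n)).filter fun v => g v = k).card = m) {x y : Fin n}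
    (hxy : x ≠ y) :
    (∑ v, tri (Turan34.turan g) x y v) + (Rf (g x) (g y) (g x) + Rf (g x) (g y) (g y)) =
      m * ∑ k, Rf (g x) (g y) k := by
  have h1 : ∀ v, tri (Turan34.turan g) x y v + ((if v = x then Rf (g x) (g y) (g x) else 0) +
      (if v = y then Rf (g x) (g y) (g y) else 0)) = Rf (g x) (g y) (g v) := by
    intro v
    by_cases hx : v = x
    · subst hx
      rw [tri_self1 (fun e he => turan_card he), if_pos rfl, if_neg hxy, zero_add, add_zero]
    · by_cases hy : v = y
      · subst hy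
        rw [tri_self3 (fun e he => turan_card he), if_neg hx, if_pos rfl, zero_add, zero_add]
      · rw [if_neg hx, if_neg hy, add_zero, add_zero, tri_ite]
        rcases Rf_sy.b (g x) (g y) (g v) with h | h
        · rw [h, if_neg]
          rw [mem_turan hxy (Ne.symm hx) (Ne.symm hy), h]
          exact zero_ne_one
        · rw [h, if_pos]
          rw [mem_turan hxy (Ne.symm hx) (Ne.symm hy), h]
  have h2 : ∑ v, Rf (g x) (g y) (g v) = m * ∑ k, Rf (g x) (g y) k := by
    rw [mul_sum]
    rw [← Finset.sum_fiberwise (s := (univ : Finset (Fin n))) (g := g)]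
    refine sum_congr rfl fun k _ => ?_
    rw [sum_congr rfl (g := fun _ => Rf (g x) (g y) k) (fun v hv => by
      rw [(mem_filter.mp hv).2]), sum_const, hg, smul_eq_mul]
  rw [← h2, ← sum_congr rfl (fun v _ => h1 v), sum_add_distrib, sum_add_distrib,
    sum_ite_eq' univ x, sum_ite_eq' univ y, if_pos (mem_univ _), if_pos (mem_univ _)]

/-- the values for the triples of parts -/
def sA (a b c : Fin 3) : ℕ := (∑ k, Rf a b k) + (∑ k, Rf a c k) + ∑ k, Rf b c k
def sB (a b c : Fin 3) : ℕ := (Rf a b a + Rf a b b) + (Rf a c a + Rf a c c) + (Rf b c b + Rf b c c)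

theorem sAB_one : ∀ a b c : Fin 3, Rf a b c = 1 → (sA a b c = 6 ∧ sB a b c = 3) ∨
    (sA a b c = 5 ∧ sB a b c = 2) := by decide
theorem sAB_zero : ∀ a b c : Fin 3, Rf a b c = 0 → (sA a b c = 3 ∧ sB a b c = 0) ∨
    (sA a b c = 5 ∧ sB a b c = 2) := by decide

theorem spf_turan (g : Fin n → Fin 3) (m : ℕ)
    (hg : ∀ k, ((univ : Finset (Fin n)).filter fun v => g v = k).card = m) {a b c : Fin n}
    (hab : a ≠ b) (hac : a ≠ c) (hbc : b ≠ c) :
    spf (Turan34.turan g) a b c + sB (g a) (g b) (g c) = m * sA (g a) (g b) (g c) := by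
  have h1 := cod_turan g m hg hab
  have h2 := cod_turan g m hg hac
  have h3 := cod_turan g m hg hbc
  have e : spf (Turan34.turan g) a b c = (∑ v, tri (Turan34.turan g) a b v) +
      ((∑ v, tri (Turan34.turan g) a c v) + ∑ v, tri (Turan34.turan g) b c v) := by
    unfold spf
    rw [← sum_add_distrib, ← sum_add_distrib]
    rfl
  rw [e]
  unfold sA sB
  rw [mul_add, mul_add, ← h1, ← h2, ← h3]
  omega

/-- the codegree sums in the complement of Turán's construction -/
theorem codsum_turan (g : Fin n → Fin 3) (m : ℕ)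
    (hg : ∀ k, ((univ : Finset (Fin n)).filter fun v => g v = k).card = m) (hm : 0 < m)
    {T : Finset (Fin n)} (hT : T.card = 3) :
    (T ∈ Turan34.turan g → 5 * m ≤ codsum (Turan34.turan g) T + 2) ∧
      (T ∉ Turan34.turan g → codsum (Turan34.turan g) T + 2 ≤ 5 * m) := by
  obtain ⟨a, b, c, hab, hac, hbc, rfl⟩ := card_eq_three.mp hT
  rw [← spf_codsum hab hac hbc, mem_turan hab hac hbc]
  have h := spf_turan g m hg hab hac hbc
  constructor
  · intro h1
    rcases sAB_one _ _ _ h1 with ⟨h2, h3⟩ | ⟨h2, h3⟩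
    · rw [h2, h3] at h; omega
    · rw [h2, h3] at h; omega
  · intro h1
    have h0 : Rf (g a) (g b) (g c) = 0 := by
      rcases Rf_sy.b (g a) (g b) (g c) with h | h
      · exact h
      · exact absurd h h1
    rcases sAB_zero _ _ _ h0 with ⟨h2, h3⟩ | ⟨h2, h3⟩
    · rw [h2, h3] at h; omega
    · rw [h2, h3] at h; omega

theorem codsum_turanC (m : ℕ) (hm : 0 < m) (g : Fin (3 * m) → Fin 3)
    (hg : ∀ k, ((univ : Finset (Fin (3 * m))).filter fun v => g v = k).card = m)
    {T : Finset (Fin (3 * m))} (hT : T.card = 3) :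
    (T ∈ turanC g → 4 * m ≤ codsum (turanC g) T + 4) ∧
      (T ∉ turanC g → codsum (turanC g) T + 4 ≤ 4 * m) := by
  have hg' : ∀ k, ((univ : Finset (Fin (3 * m))).filter fun v => -g v = k).card = m := by
    intro k
    refine Eq.trans ?_ (hg (-k))
    congr 1
    ext v
    simp only [mem_filter, mem_univ, true_and]
    constructor
    · intro h; rw [← h, neg_neg]
    · intro h; rw [h, neg_neg]
  have h := codsum_turan (fun v => -g v) m hg' hm hT
  have e : Turan34.turan (fun v => -g v) = cpl (turanC g) := by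
    rw [turan_cpl]
    congr 2
    ext v
    simp
  rw [e] at h
  have h1 := codsum_cpl (G := turanC g) (fun e he => turanC_card he) hT
  have h2 : codsum (cpl (turanC g)) T + codsum (turanC g) T + 6 = 9 * m := by
    have : (codsum (cpl (turanC g)) T : ℝ) + codsum (turanC g) T + 6 = 9 * m := by
      rw [h1]; push_cast; ring
    exact_mod_cast this
  have h3 : T ∈ cpl (turanC g) ↔ T ∉ turanC g := by
    unfold cpl
    rw [mem_sdiff, mem_powersetCard]
    exact ⟨fun h => h.2, fun h => ⟨⟨subset_univ _, hT⟩, h⟩⟩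
  rw [h3] at h
  constructor
  · intro h4
    have := h.2 (not_not.mpr h4)
    omega
  · intro h4
    have := h.1 h4
    omega

end
end Pool.Agent.V1119.NE2
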